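import Pool.Agent.H52FC.Comb

/-!
Helper file for `MP_b76cd5_al`: the size of the Laurent polynomials of a word, and the bound for
words outside the derived subgroup of `ker φ ⊓ ker ρ`.
-/

set_option autoImplicit false
set_option linter.unusedSectionVars false

namespace Pool.Agent.H52FC

open Pool.Agent.RFG43

section

variable {α : Type} [DecidableEq α] {J : Type} [Fintype J] {P : Type} [Group P] {d : ℕ}

theorem letter_le (θ : FreeGroup α →* Multiplicative (J → ℤ) × P) (c : ℕ)
    (hc : ∀ i j, |Multiplicative.toAdd (θ (FreeGroup.of i)).1 j| ≤ c) (x : α × Bool) (j : J) :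
    |Multiplicative.toAdd (θ (FreeGroup.mk [x])).1 j| ≤ c := by
  rcases x with ⟨i, b⟩
  cases b
  · rw [mk_false, map_inv, Prod.fst_inv, toAdd_inv, Pi.neg_apply, abs_neg]
    exact hc i j
  · rw [mk_true]
    exact hc i j

theorem word_le (θ : FreeGroup α →* Multiplicative (J → ℤ) × P) (c : ℕ)
    (hc : ∀ i j, |Multiplicative.toAdd (θ (FreeGroup.of i)).1 j| ≤ c) (l : List (α × Bool))
    (j : J) : |Multiplicative.toAdd (θ (FreeGroup.mk l)).1 j| ≤ c * l.length := by
  induction l with
  | nil =>
    have e1 : (FreeGroup.mk [] : FreeGroup α) = 1 := rfl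
    rw [e1, map_one]
    simp
  | cons x l ih =>
    rw [mk_cons, map_mul, Prod.fst_mul, toAdd_mul, Pi.add_apply, List.length_cons]
    have h1 := letter_le θ c hc x j
    have h2 := abs_add_le (Multiplicative.toAdd (θ (FreeGroup.mk [x])).1 j)
      (Multiplicative.toAdd (θ (FreeGroup.mk l)).1 j)
    push_cast
    linarith

theorem comb_supp (θ : FreeGroup α →* Multiplicative (J → ℤ) × P) (c : ℕ)
    (hc : ∀ i j, |Multiplicative.toAdd (θ (FreeGroup.of i)).1 j| ≤ c) (i₀ : α) (w : P → ℤ)
    (l : List (α × Bool)) (h : Multiplicative (J → ℤ) × P) (x : J → ℤ)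
    (hx : comb i₀ w (flow θ l h) x ≠ 0) (j : J) :
    |x j - Multiplicative.toAdd h.1 j| ≤ c * l.length := by
  classical
  induction l generalizing h with
  | nil => simp [flow] at hx
  | cons y l ih =>
    rw [flow, map_add, Finsupp.add_apply, comb_single] at hx
    have hy := letter_le θ c hc y j
    have hl : (0 : ℤ) ≤ c * l.length := by positivity
    by_cases h1 : comb i₀ w (flow θ l (h * θ (FreeGroup.mk [y]))) x = 0
    · rw [h1, add_zero] at hx
      by_cases h2 : (edge θ y h).2 = i₀
      · rw [if_pos h2, Finsupp.single_apply] at hx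
        have h3 : Multiplicative.toAdd (edge θ y h).1.1 = x := by
          by_contra hne
          rw [if_neg hne] at hx
          exact hx rfl
        rw [← h3, List.length_cons]
        rcases y with ⟨i, b⟩
        cases b
        · simp only [edge, Bool.false_eq_true, if_false]
          rw [Prod.fst_mul, toAdd_mul, Pi.add_apply, add_sub_cancel_left]
          push_cast
          linarith
        · simp only [edge, if_true, sub_self, abs_zero]
          positivity
      · rw [if_neg h2] at hx
        exact absurd rfl hx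
    · have h2 := ih (h * θ (FreeGroup.mk [y])) h1
      rw [Prod.fst_mul, toAdd_mul, Pi.add_apply] at h2
      rw [List.length_cons]
      have h3 : x j - Multiplicative.toAdd h.1 j =
          (x j - (Multiplicative.toAdd h.1 j +
            Multiplicative.toAdd (θ (FreeGroup.mk [y])).1 j)) +
          Multiplicative.toAdd (θ (FreeGroup.mk [y])).1 j := by ring
      rw [h3]
      have h4 := abs_add_le (x j - (Multiplicative.toAdd h.1 j +
            Multiplicative.toAdd (θ (FreeGroup.mk [y])).1 j))
          (Multiplicative.toAdd (θ (FreeGroup.mk [y])).1 j)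
      push_cast
      linarith

theorem comb_l1 (θ : FreeGroup α →* Multiplicative (J → ℤ) × P) (W : ℕ) (i₀ : α) (w : P → ℤ)
    (hw : ∀ q, |w q| ≤ W) (l : List (α × Bool)) (h : Multiplicative (J → ℤ) × P)
    (T : Finset (J → ℤ)) : ∑ x ∈ T, |comb i₀ w (flow θ l h) x| ≤ W * l.length := by
  classical
  induction l generalizing h with
  | nil => simp [flow]
  | cons y l ih =>
    have h1 := ih (h * θ (FreeGroup.mk [y]))
    have h2 : ∑ x ∈ T, |comb i₀ w (flow θ (y :: l) h) x| ≤
        ∑ x ∈ T, ((if x = Multiplicative.toAdd (edge θ y h).1.1 then (W : ℤ) else 0) +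
          |comb i₀ w (flow θ l (h * θ (FreeGroup.mk [y]))) x|) := by
      refine Finset.sum_le_sum fun x _ => ?_
      rw [flow, map_add, Finsupp.add_apply, comb_single]
      refine (abs_add_le _ _).trans ?_
      refine add_le_add_left ?_ _
      by_cases h3 : (edge θ y h).2 = i₀
      · rw [if_pos h3, Finsupp.single_apply]
        by_cases h4 : Multiplicative.toAdd (edge θ y h).1.1 = x
        · rw [if_pos h4, if_pos h4.symm, abs_mul]
          have h5 : |sgn y| = 1 := by
            rcases y with ⟨i, b⟩
            cases b <;> simp [sgn]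
          rw [h5, one_mul]
          exact hw _
        · rw [if_neg h4, if_neg (Ne.symm h4), abs_zero]
      · rw [if_neg h3, Finsupp.zero_apply, abs_zero]
        split_ifs <;> positivity
    refine h2.trans ?_
    rw [Finset.sum_add_distrib, Finset.sum_ite_eq', List.length_cons]
    push_cast
    split_ifs
    · linarith
    · have : (0 : ℤ) ≤ W := by positivity
      linarith

end

/-- The order of the affine group. -/
theorem card_affine {p d : ℕ} [Fact p.Prime] {P : Type} [Group P] [Fintype P]
    (Φ : (ZMod p)ˣ × P →* MulAut (Multiplicative (Fin d → ZMod p))) :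
    Finite (Multiplicative (Fin d → ZMod p) ⋊[Φ] ((ZMod p)ˣ × P)) ∧
    Nat.card (Multiplicative (Fin d → ZMod p) ⋊[Φ] ((ZMod p)ˣ × P)) ≤
      Fintype.card P * p ^ (d + 1) := by
  have hfin : Finite (Multiplicative (Fin d → ZMod p) ⋊[Φ] ((ZMod p)ˣ × P)) :=
    Finite.of_equiv _ (SemidirectProduct.equivProd (φ := Φ)).symm
  refine ⟨hfin, ?_⟩
  rw [Nat.card_congr (SemidirectProduct.equivProd (φ := Φ)), Nat.card_prod, Nat.card_prod,
    Nat.card_congr Multiplicative.toAdd, Nat.card_eq_fintype_card, Fintype.card_fun,
    ZMod.card, Fintype.card_fin, Nat.card_eq_fintype_card, ZMod.card_units,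
    Nat.card_eq_fintype_card, pow_succ]
  have h1 : p - 1 ≤ p := Nat.sub_le _ _
  calc p ^ d * ((p - 1) * Fintype.card P) ≤ p ^ d * (p * Fintype.card P) := by gcongr
    _ = Fintype.card P * (p ^ d * p) := by ring

end Pool.Agent.H52FC
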