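import Pool.Agent.H52FC.Rep
import Pool.Agent.RFG43.Elim

/-!
Helper file for `MP_b76cd5_al`: the Laurent polynomials of a word at a matrix entry.
-/

set_option autoImplicit false
set_option linter.unusedSectionVars false

namespace Pool.Agent.H52FC

open Pool.Agent.RFG43

section

variable {α : Type} [DecidableEq α] {J : Type} [Fintype J]
  {P : Type} [Group P] {d : ℕ}

/-- The character of `ℤ^J` given by a tuple of units. -/
def chi {p : ℕ} (a : J → (ZMod p)ˣ) : Multiplicative (J → ℤ) →* (ZMod p)ˣ where
  toFun v := ∏ j, a j ^ (Multiplicative.toAdd v j)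
  map_one' := by simp
  map_mul' := fun v w => by
    rw [← Finset.prod_mul_distrib]
    refine Finset.prod_congr rfl fun j _ => ?_
    rw [toAdd_mul, Pi.add_apply, zpow_add]

/-- The map to the finite group. -/
def kap {p : ℕ} (a : J → (ZMod p)ˣ) : Multiplicative (J → ℤ) × P →* (ZMod p)ˣ × P :=
  MonoidHom.prodMap (chi a) (MonoidHom.id P)

theorem kap_apply {p : ℕ} (a : J → (ZMod p)ˣ) (h : Multiplicative (J → ℤ) × P) :
    kap a h = (chi a h.1, h.2) := rfl

/-- The matrix of an element of `P` modulo `p`. -/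
def red (p : ℕ) (σ : P →* Matrix (Fin d) (Fin d) ℤ) (q : P) : Matrix (Fin d) (Fin d) (ZMod p) :=
  (σ q).map (Int.cast : ℤ → ZMod p)

theorem red_one (p : ℕ) (σ : P →* Matrix (Fin d) (Fin d) ℤ) : red p σ 1 = 1 := by
  rw [red, map_one]
  exact Matrix.map_one _ (by simp) (by simp)

theorem red_mul (p : ℕ) (σ : P →* Matrix (Fin d) (Fin d) ℤ) (q q' : P) :
    red p σ (q * q') = red p σ q * red p σ q' := by
  rw [red, map_mul]
  exact Matrix.map_mul (f := Int.castRingHom (ZMod p))

/-- The action on vectors. -/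
def act (p : ℕ) (σ : P →* Matrix (Fin d) (Fin d) ℤ) (b : (ZMod p)ˣ × P) :
    (Fin d → ZMod p) →+ (Fin d → ZMod p) where
  toFun v := (b.1 : ZMod p) • (red p σ b.2).mulVec v
  map_zero' := by rw [Matrix.mulVec_zero, smul_zero]
  map_add' := fun v w => by rw [Matrix.mulVec_add, smul_add]

theorem act_apply (p : ℕ) (σ : P →* Matrix (Fin d) (Fin d) ℤ) (b : (ZMod p)ˣ × P)
    (v : Fin d → ZMod p) : act p σ b v = (b.1 : ZMod p) • (red p σ b.2).mulVec v := rfl

/-- The action as a homomorphism. -/
def Phi (p : ℕ) (σ : P →* Matrix (Fin d) (Fin d) ℤ) :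
    (ZMod p)ˣ × P →* MulAut (Multiplicative (Fin d → ZMod p)) :=
  toAut (act p σ)
    (fun v => by
      rw [act_apply, Prod.fst_one, Prod.snd_one, red_one, Matrix.one_mulVec, Units.val_one,
        one_smul])
    (fun b b' v => by
      rw [act_apply, act_apply, act_apply, Prod.fst_mul, Prod.snd_mul, red_mul,
        Matrix.mulVec_smul, smul_smul, Matrix.mulVec_mulVec, Units.val_mul])

theorem Phi_apply (p : ℕ) (σ : P →* Matrix (Fin d) (Fin d) ℤ) (b : (ZMod p)ˣ × P)
    (v : Fin d → ZMod p) : Multiplicative.toAdd (Phi p σ b (Multiplicative.ofAdd v)) =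
      act p σ b v := rfl

/-- The Laurent polynomial with the weights `w`. -/
noncomputable def comb (i₀ : α) (w : P → ℤ) :
    ((Multiplicative (J → ℤ) × P) × α →₀ ℤ) →+ ((J → ℤ) →₀ ℤ) :=
  Finsupp.liftAddHom fun e => if e.2 = i₀ then
    zmultiplesHom _ (Finsupp.single (Multiplicative.toAdd e.1.1) (w e.1.2)) else 0

theorem comb_single (i₀ : α) (w : P → ℤ) (e : (Multiplicative (J → ℤ) × P) × α) (k : ℤ) :
    comb i₀ w (Finsupp.single e k) = if e.2 = i₀ then
      Finsupp.single (Multiplicative.toAdd e.1.1) (k * w e.1.2) else 0 := by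
  rw [comb, Finsupp.liftAddHom_apply_single]
  split_ifs
  · rw [zmultiplesHom_apply, Finsupp.smul_single, smul_eq_mul]
  · rfl

theorem comb_apply [Fintype P] (i₀ : α) (w : P → ℤ)
    (F : (Multiplicative (J → ℤ) × P) × α →₀ ℤ) (x : J → ℤ) :
    comb i₀ w F x = ∑ q, F ((Multiplicative.ofAdd x, q), i₀) * w q := by
  classical
  induction F using Finsupp.induction_linear with
  | zero => simp
  | add f g hf hg =>
    rw [map_add, Finsupp.add_apply, hf, hg, ← Finset.sum_add_distrib]
    refine Finset.sum_congr rfl fun q _ => ?_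
    rw [Finsupp.add_apply, add_mul]
  | single e k =>
    rw [comb_single]
    rcases e with ⟨⟨v, q'⟩, i⟩
    by_cases hi : i = i₀
    · subst hi
      rw [if_pos rfl, Finsupp.single_apply]
      by_cases hv : Multiplicative.toAdd v = x
      · subst hv
        rw [if_pos rfl, Finset.sum_eq_single q']
        · rw [ofAdd_toAdd, Finsupp.single_eq_same]
        · intro q _ hq
          rw [Finsupp.single_apply, if_neg, zero_mul]
          intro h
          exact hq (Prod.ext_iff.1 (Prod.ext_iff.1 h).1).2.symm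
        · intro h
          exact absurd (Finset.mem_univ _) h
      · rw [if_neg hv]
        symm
        refine Finset.sum_eq_zero fun q _ => ?_
        rw [Finsupp.single_apply, if_neg, zero_mul]
        intro h
        exact hv (congrArg (fun e => Multiplicative.toAdd e.1.1) h)
    · rw [if_neg hi]
      symm
      rw [Finsupp.zero_apply]
      refine Finset.sum_eq_zero fun q _ => ?_
      rw [Finsupp.single_apply, if_neg, zero_mul]
      intro h
      exact hi (Prod.ext_iff.1 h).2

theorem evg_add {p : ℕ} (f g : (J → ℤ) →₀ ℤ) (a : J → (ZMod p)ˣ) :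
    evg (f + g) a = evg f a + evg g a := by
  classical
  unfold evg
  exact Finsupp.sum_add_index' (by simp) (by intros; push_cast; ring)

theorem evg_single {p : ℕ} (x : J → ℤ) (k : ℤ) (a : J → (ZMod p)ˣ) :
    evg (Finsupp.single x k) a = (k : ZMod p) * ((∏ j, a j ^ x j : (ZMod p)ˣ) : ZMod p) := by
  unfold evg
  exact Finsupp.sum_single_index (by simp)

/-- The entries of the value of a flow. -/
theorem val_entry {p : ℕ} (σ : P →* Matrix (Fin d) (Fin d) ℤ) (a : J → (ZMod p)ˣ) (i₀ : α)
    (i j : Fin d) (F : (Multiplicative (J → ℤ) × P) × α →₀ ℤ) :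
    val (kap a) (Phi p σ) i₀ (Pi.single j 1) F i = evg (comb i₀ (fun q => σ q i j) F) a := by
  classical
  induction F using Finsupp.induction_linear with
  | zero => simp [evg]
  | add f g hf hg => rw [map_add, map_add, evg_add, Pi.add_apply, hf, hg]
  | single e k =>
    rw [comb_single, val_single]
    by_cases hi : e.2 = i₀
    · rw [if_pos hi, if_pos hi, evg_single, Pi.smul_apply, Phi_apply, act_apply, kap_apply,
        Pi.smul_apply, Matrix.mulVec_single_one, red]
      simp only [Matrix.col_apply, Matrix.map_apply, chi, MonoidHom.coe_mk, OneHom.coe_mk,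
        zsmul_eq_mul, smul_eq_mul]
      push_cast
      ring
    · rw [if_neg hi, if_neg hi]
      simp [evg]

end

end Pool.Agent.H52FC
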