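import Mathlib

/-!
Helper file for `MP_b76cd5_al`: the flow of a word on the Cayley graph of a quotient of the free
group, and the Magnus embedding.
-/

set_option autoImplicit false

namespace Pool.Agent.H52FC

variable {α : Type} {H : Type} [Group H]

/-- The edge of a letter read at the vertex `h`. -/
def edge (θ : FreeGroup α →* H) (x : α × Bool) (h : H) : H × α :=
  (if x.2 then h else h * θ (FreeGroup.mk [x]), x.1)

/-- The sign of a letter. -/
def sgn (x : α × Bool) : ℤ := if x.2 then 1 else -1

/-- The flow of the path of a word that starts at `h`. -/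
noncomputable def flow (θ : FreeGroup α →* H) : List (α × Bool) → H → (H × α →₀ ℤ)
  | [], _ => 0
  | x :: l, h => Finsupp.single (edge θ x h) (sgn x) + flow θ l (h * θ (FreeGroup.mk [x]))

theorem mk_cons (x : α × Bool) (l : List (α × Bool)) :
    FreeGroup.mk (x :: l) = FreeGroup.mk [x] * FreeGroup.mk l := by
  rw [FreeGroup.mul_mk]
  rfl

theorem mk_true (i : α) : FreeGroup.mk [(i, true)] = FreeGroup.of i := rfl

theorem mk_false (i : α) : FreeGroup.mk [(i, false)] = (FreeGroup.of i)⁻¹ := by
  rw [FreeGroup.of, FreeGroup.inv_mk]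
  rfl

/-- The class of an element of the kernel. -/
noncomputable def cl (θ : FreeGroup α →* H) (a : FreeGroup α) : Abelianization θ.ker := by
  classical
  exact if h : θ a = 1 then Abelianization.of ⟨a, h⟩ else 1

theorem cl_mul (θ : FreeGroup α →* H) (a b : FreeGroup α) (ha : θ a = 1) (hb : θ b = 1) :
    cl θ (a * b) = cl θ a * cl θ b := by
  have hab : θ (a * b) = 1 := by rw [map_mul, ha, hb, mul_one]
  rw [cl, cl, cl, dif_pos ha, dif_pos hb, dif_pos hab, ← map_mul]
  rfl

theorem cl_inv (θ : FreeGroup α →* H) (a : FreeGroup α) (ha : θ a = 1) :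
    cl θ a⁻¹ = (cl θ a)⁻¹ := by
  have hab : θ a⁻¹ = 1 := by rw [map_inv, ha, inv_one]
  rw [cl, cl, dif_pos ha, dif_pos hab, ← map_inv]
  rfl

theorem cl_one (θ : FreeGroup α →* H) : cl θ 1 = 1 := by
  rw [cl, dif_pos (map_one θ)]
  exact map_one _

theorem mem_of_cl (θ : FreeGroup α →* H) (a : FreeGroup α) (ha : θ a = 1) (h : cl θ a = 1) :
    a ∈ ⁅θ.ker, θ.ker⁆ := by
  rw [cl, dif_pos ha] at h
  have h1 : (⟨a, ha⟩ : θ.ker) ∈ commutator θ.ker := by
    rw [← Abelianization.ker_of]
    exact h
  rw [← Subgroup.map_subtype_commutator]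
  exact ⟨_, h1, rfl⟩

/-- A section of `θ` on its range with value `1` at `1`. -/
theorem exists_section (θ : FreeGroup α →* H) : ∃ s : H → FreeGroup α, s 1 = 1 ∧
    ∀ h ∈ θ.range, θ (s h) = h := by
  classical
  refine ⟨fun h => if h = 1 then 1 else if h' : h ∈ θ.range then h'.choose else 1, by simp,
    fun h hh => ?_⟩
  by_cases h1 : h = 1
  · subst h1
    simp
  · simp only [if_neg h1, dif_pos hh]
    exact hh.choose_spec

/-- **Magnus embedding.** A word in the kernel with flow zero is in the derived subgroup of the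
kernel. -/
theorem magnus (θ : FreeGroup α →* H) (l : List (α × Bool)) (hl : θ (FreeGroup.mk l) = 1)
    (hf : flow θ l 1 = 0) : FreeGroup.mk l ∈ ⁅θ.ker, θ.ker⁆ := by
  classical
  obtain ⟨s, hs1, hs⟩ := exists_section θ
  set c : H × α → Abelianization θ.ker := fun e =>
    cl θ (s e.1 * FreeGroup.of e.2 * (s (e.1 * θ (FreeGroup.of e.2)))⁻¹) with hc
  set S : (H × α →₀ ℤ) →+ Additive (Abelianization θ.ker) :=
    Finsupp.liftAddHom fun e => zmultiplesHom _ (Additive.ofMul (c e)) with hS
  have hSs : ∀ (e : H × α) (k : ℤ), S (Finsupp.single e k) = k • Additive.ofMul (c e) := by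
    intro e k
    rw [hS, Finsupp.liftAddHom_apply_single]
    rfl
  have key : ∀ (l : List (α × Bool)) (h : H), h ∈ θ.range →
      S (flow θ l h) = Additive.ofMul
        (cl θ (s h * FreeGroup.mk l * (s (h * θ (FreeGroup.mk l)))⁻¹)) := by
    intro l
    induction l with
    | nil =>
      intro h _
      have e1 : (FreeGroup.mk [] : FreeGroup α) = 1 := rfl
      rw [flow, map_zero, e1, map_one, mul_one, mul_one, mul_inv_cancel, cl_one]
      rfl
    | cons x l ih =>
      intro h hh
      have hx : h * θ (FreeGroup.mk [x]) ∈ θ.range := θ.range.mul_mem hh ⟨_, rfl⟩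
      have hxl : h * θ (FreeGroup.mk (x :: l)) ∈ θ.range := θ.range.mul_mem hh ⟨_, rfl⟩
      have e2 : h * θ (FreeGroup.mk [x]) * θ (FreeGroup.mk l) = h * θ (FreeGroup.mk (x :: l)) := by
        rw [mul_assoc, ← map_mul, ← mk_cons]
      have e3 : s h * FreeGroup.mk (x :: l) * (s (h * θ (FreeGroup.mk (x :: l))))⁻¹ =
          (s h * FreeGroup.mk [x] * (s (h * θ (FreeGroup.mk [x])))⁻¹) *
          (s (h * θ (FreeGroup.mk [x])) * FreeGroup.mk l *
            (s (h * θ (FreeGroup.mk [x]) * θ (FreeGroup.mk l)))⁻¹) := by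
        rw [e2, mk_cons x l]
        group
      have z1 : θ (s h * FreeGroup.mk [x] * (s (h * θ (FreeGroup.mk [x])))⁻¹) = 1 := by
        rw [map_mul, map_mul, map_inv, hs _ hh, hs _ hx]
        group
      have z2 : θ (s (h * θ (FreeGroup.mk [x])) * FreeGroup.mk l *
            (s (h * θ (FreeGroup.mk [x]) * θ (FreeGroup.mk l)))⁻¹) = 1 := by
        rw [map_mul, map_mul, map_inv, hs _ hx, e2, hs _ hxl, ← e2]
        group
      rw [flow, map_add, ih _ hx, e3, cl_mul θ _ _ z1 z2, ofMul_mul, hSs]
      congr 1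
      rcases x with ⟨i, b⟩
      cases b
      · have z3 : θ (s (h * (θ (FreeGroup.of i))⁻¹) * FreeGroup.of i * (s h)⁻¹) = 1 := by
          have hx' := hx
          rw [mk_false, map_inv] at hx'
          rw [map_mul, map_mul, map_inv, hs _ hh, hs _ hx']
          group
        have e4 : s h * FreeGroup.mk [(i, false)] * (s (h * θ (FreeGroup.mk [(i, false)])))⁻¹ =
            (s (h * (θ (FreeGroup.of i))⁻¹) * FreeGroup.of i * (s h)⁻¹)⁻¹ := by
          rw [mk_false, map_inv]
          group
        rw [e4, cl_inv θ _ z3]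
        simp only [edge, sgn, hc, Bool.false_eq_true, if_false]
        rw [mk_false, map_inv, inv_mul_cancel_right, neg_one_smul]
        rfl
      · simp only [edge, sgn, hc, if_true, one_smul]
        rw [mk_true]
  have h1 := key l 1 (one_mem _)
  rw [hf, map_zero, one_mul, hl, hs1, one_mul, inv_one, mul_one] at h1
  exact mem_of_cl θ _ hl (Additive.ofMul.injective h1.symm)

end Pool.Agent.H52FC
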