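import Pool.Agent.H52FC.Ind
import Pool.Agent.H52FC.Mag

/-!
Helper file for `MP_b76cd5_al`: lengths in subgroups of finite index.
-/

set_option autoImplicit false

namespace Pool.Agent.H52FC

/-- A free group that is finitely generated has finitely many letters. -/
theorem finite_letters (β : Type) [DecidableEq β] (h : Group.FG (FreeGroup β)) : Finite β := by
  classical
  obtain ⟨S, hS⟩ := Group.fg_def.1 h
  set T : Finset β := S.biUnion fun s => (s.toWord.map Prod.fst).toFinset with hT
  have hall : ∀ i, i ∈ T := by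
    intro i
    by_contra hi
    set χ : FreeGroup β →* Multiplicative ℤ :=
      FreeGroup.lift fun j => if j = i then Multiplicative.ofAdd 1 else 1 with hχ
    have h1 : ∀ s ∈ (S : Set (FreeGroup β)), χ s = 1 := by
      intro s hs
      have h2 : ∀ x ∈ s.toWord, x.1 ≠ i := by
        intro x hx hxi
        apply hi
        rw [hT, Finset.mem_biUnion]
        exact ⟨s, hs, by
          rw [List.mem_toFinset, ← hxi]
          exact List.mem_map_of_mem hx⟩
      have h3 : ∀ l : List (β × Bool), (∀ x ∈ l, x.1 ≠ i) → χ (FreeGroup.mk l) = 1 := by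
        intro l
        induction l with
        | nil => intro _; exact map_one χ
        | cons x l ih =>
          intro hl
          rw [mk_cons, map_mul, ih fun y hy => hl y (List.mem_cons_of_mem _ hy), mul_one]
          have hx := hl x List.mem_cons_self
          rcases x with ⟨j, b⟩
          cases b
          · rw [mk_false, map_inv, hχ, FreeGroup.lift_apply_of, if_neg hx, inv_one]
          · rw [mk_true, hχ, FreeGroup.lift_apply_of, if_neg hx]
      have h4 := h3 s.toWord h2
      rwa [FreeGroup.mk_toWord] at h4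
    have h6 : (⊤ : Subgroup (FreeGroup β)) ≤ χ.ker := by
      rw [← hS, Subgroup.closure_le]
      exact h1
    have h7 : χ (FreeGroup.of i) = 1 := h6 (Subgroup.mem_top _)
    rw [hχ, FreeGroup.lift_apply_of, if_pos rfl] at h7
    exact one_ne_zero (congrArg Multiplicative.toAdd h7 : (1 : ℤ) = 0)
  exact Finite.of_injective (fun i => (⟨i, hall i⟩ : T)) fun a b hab => congrArg Subtype.val hab

/-- The length in a subgroup of finite index is at most a multiple of the length in the group. -/
theorem length_le {G ι β : Type} [Group G] [Finite ι] [DecidableEq ι] [DecidableEq β]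
    (b : FreeGroupBasis ι G) (R : Subgroup G) [R.FiniteIndex] (e : R ≃* FreeGroup β) :
    ∃ L : ℕ, ∀ g : R, g ≠ 1 → (e g).norm ≤ L * (b.repr (g : G)).norm := by
  classical
  have hX : Finite (G ⧸ R) := R.finite_quotient_of_finiteIndex
  have hXF : Fintype (G ⧸ R) := Fintype.ofFinite _
  have hιF : Fintype ι := Fintype.ofFinite _
  set lt : ι × Bool → G := fun z => b.repr.symm (FreeGroup.mk [z]) with hlt
  set L0 : ℕ := ∑ z : ι × Bool, ∑ x : G ⧸ R, (e (coc R (lt z) x)).norm with hL0
  have hle : ∀ z x, (e (coc R (lt z) x)).norm ≤ L0 := by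
    intro z x
    calc (e (coc R (lt z) x)).norm ≤ ∑ x : G ⧸ R, (e (coc R (lt z) x)).norm :=
          Finset.single_le_sum (f := fun x => (e (coc R (lt z) x)).norm)
            (fun _ _ => Nat.zero_le _) (Finset.mem_univ x)
      _ ≤ _ := Finset.single_le_sum (f := fun z => ∑ x : G ⧸ R, (e (coc R (lt z) x)).norm)
            (fun _ _ => Nat.zero_le _) (Finset.mem_univ z)
  have hword : ∀ (l : List (ι × Bool)) (x : G ⧸ R),
      (e (coc R (b.repr.symm (FreeGroup.mk l)) x)).norm ≤ L0 * l.length := by
    intro l
    induction l with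
    | nil =>
      intro x
      have e1 : (FreeGroup.mk [] : FreeGroup ι) = 1 := rfl
      rw [e1, map_one, coc_one, map_one, FreeGroup.norm_one]
      exact Nat.zero_le _
    | cons z l ih =>
      intro x
      rw [mk_cons, map_mul, coc_mul, map_mul, List.length_cons, mul_add, mul_one, add_comm]
      exact (FreeGroup.norm_mul_le _ _).trans (add_le_add (hle z _) (ih x))
  set x₀ : G ⧸ R := QuotientGroup.mk 1 with hx₀
  have h5 : (Quotient.out x₀) ∈ R := by
    have h6 : (QuotientGroup.mk (Quotient.out x₀) : G ⧸ R) = QuotientGroup.mk 1 :=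
      Quotient.out_eq' _
    have h7 := QuotientGroup.eq.1 h6.symm
    rwa [inv_one, one_mul] at h7
  set a : R := ⟨_, h5⟩ with ha
  refine ⟨L0 + 2 * (e a).norm, fun g hg => ?_⟩
  have h4 : (g : G) • x₀ = x₀ := by
    rw [hx₀, MulAction.Quotient.smul_mk, smul_eq_mul, mul_one]
    apply QuotientGroup.eq.2
    rw [mul_one]
    exact R.inv_mem g.2
  have h8 : g = a * coc R g x₀ * a⁻¹ := by
    apply Subtype.ext
    rw [Subgroup.coe_mul, Subgroup.coe_mul, coc_coe, h4, Subgroup.coe_inv]
    change (g : G) = Quotient.out x₀ * ((Quotient.out x₀)⁻¹ * (↑g * Quotient.out x₀)) *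
      (Quotient.out x₀)⁻¹
    group
  have h9 : (e g).norm ≤ (e a).norm + (e (coc R g x₀)).norm + (e a).norm := by
    conv_lhs => rw [h8]
    rw [map_mul, map_mul, map_inv]
    refine (FreeGroup.norm_mul_le _ _).trans ?_
    rw [FreeGroup.norm_inv_eq]
    exact add_le_add (FreeGroup.norm_mul_le _ _) le_rfl
  have h10 := hword (b.repr (g : G)).toWord x₀
  rw [FreeGroup.mk_toWord, MulEquiv.symm_apply_apply] at h10
  have h11 : 1 ≤ (b.repr (g : G)).norm := by
    rcases Nat.eq_zero_or_pos (b.repr (g : G)).norm with h | h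
    · exfalso
      apply hg
      rw [FreeGroup.norm_eq_zero] at h
      apply Subtype.ext
      have := congrArg b.repr.symm h
      simpa using this
    · exact h
  have h12 : (b.repr (g : G)).toWord.length = (b.repr (g : G)).norm := rfl
  rw [h12] at h10
  calc (e g).norm ≤ (e a).norm + (e (coc R g x₀)).norm + (e a).norm := h9
    _ ≤ (e a).norm + L0 * (b.repr (g : G)).norm + (e a).norm := by gcongr
    _ = L0 * (b.repr (g : G)).norm + 2 * (e a).norm * 1 := by ring
    _ ≤ L0 * (b.repr (g : G)).norm + 2 * (e a).norm * (b.repr (g : G)).norm := by gcongr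
    _ = _ := by ring

end Pool.Agent.H52FC
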