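import Pool.Agent.H52FC.Main
import Pool.Agent.H52FC.Sch

/-!
Helper file for `MP_b76cd5_al`: the bound for subgroups of finite index.
-/

set_option autoImplicit false

namespace Pool.Agent.H52FC

theorem cover (s d m : ℕ) (τ : ℝ) (hτ : 1 ≤ τ * (d + 1)) (hP : PrimeStm s τ)
    (G ι : Type) [Group G] [Finite ι] [DecidableEq ι] (b : FreeGroupBasis ι G)
    (R : Subgroup G) [R.FiniteIndex] (φ : R →* Multiplicative (Fin s → ℤ))
    (P : Type) [Group P] [Fintype P] (ρ : R →* P)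
    (σ : Fin m → (P →* Matrix (Fin d) (Fin d) ℤ))
    (hσ : ∀ f : P → ℤ, (∀ j, ∑ q, f q • σ j q = 0) → f = 0) :
    ∃ C : ℝ, 0 < C ∧ ∀ g : G, g ∉ (⁅φ.ker ⊓ ρ.ker, φ.ker ⊓ ρ.ker⁆).map R.subtype →
      ∃ (Q : Type) (_ : Group Q) (π : G →* Q), Finite Q ∧ π g ≠ 1 ∧
        (∀ x : G, (∀ y : G, y * x * y⁻¹ ∈
          (⁅φ.ker ⊓ ρ.ker, φ.ker ⊓ ρ.ker⁆).map R.subtype) → π x = 1) ∧
        (Nat.card Q : ℝ) ≤ C * ((b.repr g).norm : ℝ) ^ (τ * (d + 1) * R.index) := by
  classical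
  have hG : IsFreeGroup G := b.isFreeGroup
  have hR : IsFreeGroup R := subgroupIsFreeOfIsFree R
  obtain ⟨β, ⟨e⟩⟩ : ∃ β : Type, Nonempty (R ≃* FreeGroup β) :=
    ⟨IsFreeGroup.Generators R, ⟨IsFreeGroup.toFreeGroup R⟩⟩
  have hGfg : Group.FG G := Group.fg_of_surjective (f := b.repr.symm.toMonoidHom)
    b.repr.symm.surjective
  have hRfg : Group.FG R := inferInstance
  have hβfg : Group.FG (FreeGroup β) := Group.fg_of_surjective (f := e.toMonoidHom) e.surjective
  have hβ : Finite β := finite_letters β hβfg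
  have hβF : Fintype β := Fintype.ofFinite _
  obtain ⟨L, hL⟩ := length_le b R e
  set φ' : FreeGroup β →* Multiplicative (Fin s → ℤ) := φ.comp e.symm.toMonoidHom with hφ'
  set ρ' : FreeGroup β →* P := ρ.comp e.symm.toMonoidHom with hρ'
  set c : ℕ := ∑ i, ∑ j, (Multiplicative.toAdd (φ' (FreeGroup.of i)) j).natAbs with hc
  have hcle : ∀ i j, |Multiplicative.toAdd (φ' (FreeGroup.of i)) j| ≤ c := by
    intro i j
    have h1 : (Multiplicative.toAdd (φ' (FreeGroup.of i)) j).natAbs ≤ c := by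
      calc (Multiplicative.toAdd (φ' (FreeGroup.of i)) j).natAbs ≤
            ∑ j, (Multiplicative.toAdd (φ' (FreeGroup.of i)) j).natAbs :=
            Finset.single_le_sum
              (f := fun j => (Multiplicative.toAdd (φ' (FreeGroup.of i)) j).natAbs)
              (fun _ _ => Nat.zero_le _) (Finset.mem_univ j)
        _ ≤ _ := Finset.single_le_sum
              (f := fun i => ∑ j, (Multiplicative.toAdd (φ' (FreeGroup.of i)) j).natAbs)
              (fun _ _ => Nat.zero_le _) (Finset.mem_univ i)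
    rw [Int.abs_eq_natAbs]
    exact_mod_cast h1
  obtain ⟨C, hC, hmain⟩ := free_main s d m c τ hτ hP P σ hσ
  have hfw : ∀ w ∈ ⁅φ'.ker ⊓ ρ'.ker, φ'.ker ⊓ ρ'.ker⁆,
      e.symm w ∈ ⁅φ.ker ⊓ ρ.ker, φ.ker ⊓ ρ.ker⁆ := by
    intro w hw
    have h1 : (φ'.ker ⊓ ρ'.ker).map e.symm.toMonoidHom ≤ φ.ker ⊓ ρ.ker := by
      rintro _ ⟨a, ha, rfl⟩
      exact ha
    have h2 : w ∈ ⁅φ'.ker ⊓ ρ'.ker, φ'.ker ⊓ ρ'.ker⁆ := hw
    have h3 : e.symm w ∈ (⁅φ'.ker ⊓ ρ'.ker, φ'.ker ⊓ ρ'.ker⁆).map e.symm.toMonoidHom :=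
      ⟨w, h2, rfl⟩
    rw [Subgroup.map_commutator] at h3
    exact Subgroup.commutator_mono h1 h1 h3
  have hbw : ∀ x ∈ ⁅φ.ker ⊓ ρ.ker, φ.ker ⊓ ρ.ker⁆,
      e x ∈ ⁅φ'.ker ⊓ ρ'.ker, φ'.ker ⊓ ρ'.ker⁆ := by
    intro x hx
    have h1 : (φ.ker ⊓ ρ.ker).map e.toMonoidHom ≤ φ'.ker ⊓ ρ'.ker := by
      rintro _ ⟨a, ha, rfl⟩
      constructor
      · change φ (e.symm (e a)) = 1
        rw [e.symm_apply_apply]
        exact ha.1
      · change ρ (e.symm (e a)) = 1
        rw [e.symm_apply_apply]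
        exact ha.2
    have h3 : e x ∈ (⁅φ.ker ⊓ ρ.ker, φ.ker ⊓ ρ.ker⁆).map e.toMonoidHom := ⟨x, hx, rfl⟩
    rw [Subgroup.map_commutator] at h3
    exact Subgroup.commutator_mono h1 h1 h3
  have hexp : 0 ≤ τ * (d + 1) := by linarith
  have hLp : (0 : ℝ) ≤ (L : ℝ) ^ (τ * (d + 1)) := by positivity
  refine ⟨R.index.factorial * (C * (L : ℝ) ^ (τ * (d + 1))) ^ R.index + R.index.factorial,
    by positivity, fun g hg => ?_⟩
  have hg1 : g ≠ 1 := by
    rintro rfl
    exact hg (one_mem _)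
  have hn1 : (1 : ℝ) ≤ (b.repr g).norm := by
    have : (b.repr g).norm ≠ 0 := by
      intro h
      rw [FreeGroup.norm_eq_zero] at h
      apply hg1
      have := congrArg b.repr.symm h
      simpa using this
    exact_mod_cast Nat.one_le_iff_ne_zero.2 this
  have hi0 : (0 : ℝ) ≤ R.index := Nat.cast_nonneg _
  have hpow1 : (1 : ℝ) ≤ ((b.repr g).norm : ℝ) ^ (τ * (d + 1) * R.index) :=
    Real.one_le_rpow hn1 (mul_nonneg hexp hi0)
  by_cases hgR : g ∈ R
  · set g' : R := ⟨g, hgR⟩ with hg'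
    have hg'1 : g' ≠ 1 := fun h => hg1 (congrArg Subtype.val h)
    have hw : e g' ∉ ⁅φ'.ker ⊓ ρ'.ker, φ'.ker ⊓ ρ'.ker⁆ := by
      intro h
      apply hg
      have h1 := hfw _ h
      rw [e.symm_apply_apply] at h1
      exact ⟨g', h1, rfl⟩
    obtain ⟨Q, hQ, π, hfin, hπ, hkill, hcard⟩ := hmain β φ' ρ' hcle (e g') hw
    obtain ⟨Q', hQ', π', hfin', hcard', -, h2, h3⟩ := induced R (π.comp e.toMonoidHom)
    refine ⟨Q', hQ', π', hfin', h2 g' hπ, ?_, ?_⟩
    · intro x hx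
      refine h3 x fun y => ?_
      obtain ⟨z, hz, hzy⟩ := hx y
      have hyR : y * x * y⁻¹ ∈ R := by
        rw [← hzy]
        exact z.2
      refine ⟨hyR, ?_⟩
      have h4 : (⟨y * x * y⁻¹, hyR⟩ : R) = z := Subtype.ext hzy.symm
      rw [h4]
      exact hkill _ (hbw z hz)
    · have hwn : ((e g').norm : ℝ) ≤ L * (b.repr g).norm := by exact_mod_cast hL g' hg'1
      have h4 : (Nat.card Q : ℝ) ≤ C * (L : ℝ) ^ (τ * (d + 1)) *
          ((b.repr g).norm : ℝ) ^ (τ * (d + 1)) := by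
        calc (Nat.card Q : ℝ) ≤ C * ((e g').norm : ℝ) ^ (τ * (d + 1)) := hcard
          _ ≤ C * ((L : ℝ) * (b.repr g).norm) ^ (τ * (d + 1)) := by
              apply mul_le_mul_of_nonneg_left _ hC.le
              exact Real.rpow_le_rpow (Nat.cast_nonneg _) hwn hexp
          _ = _ := by
              rw [Real.mul_rpow (Nat.cast_nonneg _) (Nat.cast_nonneg _)]
              ring
      have h5 : (Nat.card Q' : ℝ) ≤ R.index.factorial * (Nat.card Q : ℝ) ^ R.index := by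
        exact_mod_cast hcard'
      have h6 : ((b.repr g).norm : ℝ) ^ (τ * (d + 1) * R.index) =
          (((b.repr g).norm : ℝ) ^ (τ * (d + 1))) ^ R.index := by
        rw [Real.rpow_mul (Nat.cast_nonneg _) (τ * (d + 1)) (R.index : ℝ), Real.rpow_natCast]
      calc (Nat.card Q' : ℝ) ≤ R.index.factorial * (Nat.card Q : ℝ) ^ R.index := h5
        _ ≤ R.index.factorial * (C * (L : ℝ) ^ (τ * (d + 1)) *
            ((b.repr g).norm : ℝ) ^ (τ * (d + 1))) ^ R.index := by gcongr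
        _ = R.index.factorial * (C * (L : ℝ) ^ (τ * (d + 1))) ^ R.index *
            ((b.repr g).norm : ℝ) ^ (τ * (d + 1) * R.index) := by
            rw [mul_pow, h6]
            ring
        _ ≤ _ := by
            apply mul_le_mul_of_nonneg_right _ (by positivity)
            linarith [Nat.cast_nonneg (α := ℝ) R.index.factorial]
  · obtain ⟨Q', hQ', π', hfin', hcard', h1, -, h3⟩ := induced R (1 : R →* Unit)
    refine ⟨Q', hQ', π', hfin', h1 g hgR, ?_, ?_⟩
    · intro x hx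
      refine h3 x fun y => ?_
      obtain ⟨z, hz, hzy⟩ := hx y
      have hyR : y * x * y⁻¹ ∈ R := by
        rw [← hzy]
        exact z.2
      exact ⟨hyR, rfl⟩
    · have h5 : (Nat.card Q' : ℝ) ≤ R.index.factorial := by
        have h6 : Nat.card Q' ≤ R.index.factorial := by
          refine hcard'.trans (le_of_eq ?_)
          simp
        exact_mod_cast h6
      calc (Nat.card Q' : ℝ) ≤ R.index.factorial * 1 := by rw [mul_one]; exact h5
        _ ≤ (R.index.factorial * (C * (L : ℝ) ^ (τ * (d + 1))) ^ R.index +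
            R.index.factorial) * ((b.repr g).norm : ℝ) ^ (τ * (d + 1) * R.index) := by
            apply mul_le_mul _ hpow1 (by norm_num) (by positivity)
            have : (0 : ℝ) ≤ R.index.factorial * (C * (L : ℝ) ^ (τ * (d + 1))) ^ R.index := by
              positivity
            linarith

end Pool.Agent.H52FC
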