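import Mathlib

/-!
Definitions for the hand-in `FiniteCovers` of `MP_b76cd5_al`.
-/

set_option autoImplicit false

namespace Pool.Agent.H52FC

/-- The integral group ring of the finite group `P` is separated by the homomorphisms from `P` to
the integral matrices of size `d` (they land in `GL_d(ℤ)`): an integral combination
`∑ f(q) q` that is sent to zero by all of them is zero. -/
def Separated (d : ℕ) (P : Type) [Group P] [Fintype P] : Prop :=
  ∀ f : P → ℤ, (∀ σ : P →* Matrix (Fin d) (Fin d) ℤ, ∑ q, f q • σ q = 0) → f = 0

/-- The exponent `τ(s)`: `11 / 15` for `s = 3` and `s / (s + 1)` for all other `s`. -/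
noncomputable def tau (s : ℕ) : ℝ := if s = 3 then 11 / 15 else (s : ℝ) / (s + 1)

end Pool.Agent.H52FC
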