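import Pool.Agent.H52FC.Bnd

/-!
Helper file for `MP_b76cd5_al`: the bound for words outside the derived subgroup of
`ker φ ⊓ ker ρ`, with `φ` to a free abelian group and `ρ` to a finite group.
-/

set_option autoImplicit false

namespace Pool.Agent.H52FC

open Pool.Agent.RFG43

/-- The prime statement: a Laurent polynomial in `s` variables does not vanish at some point over
some prime field with `p ≤ n ^ τ`. -/
def PrimeStm (s : ℕ) (τ : ℝ) : Prop := ∃ n0 : ℕ, ∀ n : ℕ, n0 ≤ n →
  ∀ f : (Fin s → ℤ) →₀ ℤ, f ≠ 0 →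
    (∀ x ∈ f.support, ∀ y ∈ f.support, ∀ j, |x j - y j| ≤ n) →
    (∑ x ∈ f.support, |f x| ≤ (n : ℤ)) →
    ∃ p : ℕ, ∃ _ : Fact p.Prime, (p : ℝ) ≤ (n : ℝ) ^ τ ∧
      ∃ a : Fin s → (ZMod p)ˣ, evg f a ≠ 0

theorem free_main (s d m c : ℕ) (τ : ℝ) (hτ : 1 ≤ τ * (d + 1))
    (hP : PrimeStm s τ) (P : Type) [Group P] [Fintype P]
    (σ : Fin m → (P →* Matrix (Fin d) (Fin d) ℤ))
    (hσ : ∀ f : P → ℤ, (∀ j, ∑ q, f q • σ j q = 0) → f = 0) :
    ∃ C : ℝ, 0 < C ∧ ∀ (α : Type) [DecidableEq α] (φ : FreeGroup α →* Multiplicative (Fin s → ℤ))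
      (ρ : FreeGroup α →* P), (∀ i j, |Multiplicative.toAdd (φ (FreeGroup.of i)) j| ≤ c) →
      ∀ w : FreeGroup α, w ∉ ⁅φ.ker ⊓ ρ.ker, φ.ker ⊓ ρ.ker⁆ →
      ∃ (Q : Type) (_ : Group Q) (π : FreeGroup α →* Q), Finite Q ∧ π w ≠ 1 ∧
        (∀ x ∈ ⁅φ.ker ⊓ ρ.ker, φ.ker ⊓ ρ.ker⁆, π x = 1) ∧
        (Nat.card Q : ℝ) ≤ C * (w.norm : ℝ) ^ (τ * (d + 1)) := by
  classical
  obtain ⟨n0, hn0⟩ := hP
  obtain ⟨W, hW⟩ : ∃ W : ℕ, ∀ (j : Fin m) (q : P) (i i' : Fin d), |σ j q i i'| ≤ W := by
    refine ⟨∑ j, ∑ q, ∑ i, ∑ i', (σ j q i i').natAbs, fun j q i i' => ?_⟩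
    have h1 : (σ j q i i').natAbs ≤ ∑ j, ∑ q, ∑ i, ∑ i', (σ j q i i').natAbs := by
      calc (σ j q i i').natAbs ≤ ∑ i', (σ j q i i').natAbs :=
            Finset.single_le_sum (f := fun i' => (σ j q i i').natAbs)
              (fun _ _ => Nat.zero_le _) (Finset.mem_univ i')
        _ ≤ ∑ i, ∑ i', (σ j q i i').natAbs :=
            Finset.single_le_sum (f := fun i => ∑ i', (σ j q i i').natAbs)
              (fun _ _ => Nat.zero_le _) (Finset.mem_univ i)
        _ ≤ ∑ q, ∑ i, ∑ i', (σ j q i i').natAbs :=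
            Finset.single_le_sum (f := fun q => ∑ i, ∑ i', (σ j q i i').natAbs)
              (fun _ _ => Nat.zero_le _) (Finset.mem_univ q)
        _ ≤ _ :=
            Finset.single_le_sum (f := fun j => ∑ q, ∑ i, ∑ i', (σ j q i i').natAbs)
              (fun _ _ => Nat.zero_le _) (Finset.mem_univ j)
    rw [Int.abs_eq_natAbs]
    exact_mod_cast h1
  set K : ℕ := 2 * c + W + n0 + 1 with hK
  have hK1 : (1 : ℝ) ≤ K := by exact_mod_cast (by omega : 1 ≤ K)
  refine ⟨Fintype.card P * (K : ℝ) ^ (τ * (d + 1)) + (c + 1) + Fintype.card P, by positivity,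
    fun α _ φ ρ hφ w hw => ?_⟩
  set θ : FreeGroup α →* Multiplicative (Fin s → ℤ) × P := φ.prod ρ with hθ
  have hker : θ.ker = φ.ker ⊓ ρ.ker := MonoidHom.ker_prod φ ρ
  rw [← hker] at hw ⊢
  have hc : ∀ i j, |Multiplicative.toAdd (θ (FreeGroup.of i)).1 j| ≤ c := hφ
  obtain ⟨l, hl⟩ : ∃ l, w.toWord = l := ⟨_, rfl⟩
  have hwl : FreeGroup.mk l = w := by rw [← hl]; exact FreeGroup.mk_toWord
  have hn : w.norm = l.length := by rw [FreeGroup.norm, hl]
  have hn1 : 1 ≤ w.norm := by
    rcases Nat.eq_zero_or_pos w.norm with h | h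
    · exfalso
      apply hw
      rw [FreeGroup.norm_eq_zero] at h
      rw [h]
      exact one_mem _
    · exact h
  have hn1r : (1 : ℝ) ≤ w.norm := by exact_mod_cast hn1
  have hpow : (w.norm : ℝ) ≤ (w.norm : ℝ) ^ (τ * (d + 1)) := by
    calc (w.norm : ℝ) = (w.norm : ℝ) ^ (1 : ℝ) := (Real.rpow_one _).symm
      _ ≤ _ := Real.rpow_le_rpow_of_exponent_le hn1r hτ
  have hKp : (0 : ℝ) ≤ Fintype.card P * (K : ℝ) ^ (τ * (d + 1)) := by positivity
  have hPp : (0 : ℝ) ≤ Fintype.card P := by positivity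
  by_cases h1 : φ w = 1
  · by_cases h2 : ρ w = 1
    · have hθw : θ (FreeGroup.mk l) = 1 := by
        rw [hwl, hθ, MonoidHom.prod_apply, h1, h2]
        rfl
      have hflow : flow θ l 1 ≠ 0 := by
        intro h
        apply hw
        rw [← hwl]
        exact magnus θ l hθw h
      obtain ⟨⟨⟨v₀, q₀⟩, i₀⟩, he₀⟩ : ∃ e, flow θ l 1 e ≠ 0 := by
        by_contra hcon
        push Not at hcon
        exact hflow (Finsupp.ext hcon)
      have hfP : (fun q => flow θ l 1 ((v₀, q), i₀)) ≠ 0 := by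
        intro h
        exact he₀ (congrFun h q₀)
      obtain ⟨j, hj⟩ : ∃ j, ∑ q, flow θ l 1 ((v₀, q), i₀) • σ j q ≠ 0 := by
        by_contra hcon
        push Not at hcon
        exact hfP (hσ _ hcon)
      obtain ⟨i, i', hii⟩ : ∃ i i', ∑ q, flow θ l 1 ((v₀, q), i₀) * σ j q i i' ≠ 0 := by
        by_contra hcon
        push Not at hcon
        apply hj
        ext i i'
        rw [Matrix.sum_apply, Matrix.zero_apply, ← hcon i i']
        exact Finset.sum_congr rfl fun q _ => by rw [Matrix.smul_apply, smul_eq_mul]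
      set f : (Fin s → ℤ) →₀ ℤ := comb i₀ (fun q => σ j q i i') (flow θ l 1) with hf
      have hf0 : f ≠ 0 := by
        intro h
        apply hii
        have h3 := comb_apply i₀ (fun q => σ j q i i') (flow θ l 1) (Multiplicative.toAdd v₀)
        rw [ofAdd_toAdd] at h3
        rw [← h3, ← hf, h, Finsupp.zero_apply]
      have hKn : n0 ≤ K * w.norm := by
        calc n0 ≤ K * 1 := by omega
          _ ≤ K * w.norm := Nat.mul_le_mul_left _ hn1
      have hbox : ∀ x ∈ f.support, ∀ y ∈ f.support, ∀ k,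
          |x k - y k| ≤ ((K * w.norm : ℕ) : ℤ) := by
        intro x hx y hy k
        rw [Finsupp.mem_support_iff] at hx hy
        have e1 := comb_supp θ c hc i₀ _ l 1 x hx k
        have e2 := comb_supp θ c hc i₀ _ l 1 y hy k
        rw [← hn] at e1 e2
        have e3 : x k - y k = (x k - Multiplicative.toAdd
            (1 : Multiplicative (Fin s → ℤ) × P).1 k) - (y k - Multiplicative.toAdd
            (1 : Multiplicative (Fin s → ℤ) × P).1 k) := by ring
        rw [e3]
        refine (abs_sub _ _).trans ?_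
        have e4 : ((2 * c * w.norm : ℕ) : ℤ) ≤ ((K * w.norm : ℕ) : ℤ) := by
          exact_mod_cast Nat.mul_le_mul_right _ (by omega)
        push_cast at e4 ⊢
        linarith
      have hl1 : ∑ x ∈ f.support, |f x| ≤ ((K * w.norm : ℕ) : ℤ) := by
        refine (comb_l1 θ W i₀ _ (fun q => hW j q i i') l 1 f.support).trans ?_
        rw [← hn]
        have e4 : W * w.norm ≤ K * w.norm := Nat.mul_le_mul_right _ (by omega)
        exact_mod_cast e4
      obtain ⟨p, hp, hpn, a, ha⟩ := hn0 (K * w.norm) hKn f hf0 hbox hl1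
      obtain ⟨hfin, hcard⟩ := card_affine (Phi p (σ j)) (d := d) (P := P)
      refine ⟨_, inferInstance, aff (Phi p (σ j)) (fun k => kap a (θ (FreeGroup.of k))) i₀
        (Pi.single i' 1), hfin, ?_, fun x hx => aff_kills θ (kap a) _ _ _ x hx, ?_⟩
      · rw [← hwl]
        apply aff_ne_one
        intro h
        apply ha
        rw [hf, ← val_entry, h, Pi.zero_apply]
      · have hp0 : (0 : ℝ) ≤ p := Nat.cast_nonneg p
        have e1 : ((p : ℝ)) ^ (d + 1) ≤ ((K : ℝ) * w.norm) ^ (τ * (d + 1)) := by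
          have e2 : (p : ℝ) ≤ ((K : ℝ) * w.norm) ^ τ := by
            have := hpn
            push_cast at this
            exact this
          calc ((p : ℝ)) ^ (d + 1) ≤ (((K : ℝ) * w.norm) ^ τ) ^ (d + 1) :=
                pow_le_pow_left₀ hp0 e2 _
            _ = ((K : ℝ) * w.norm) ^ (τ * (d + 1)) := by
                rw [← Real.rpow_natCast, ← Real.rpow_mul (by positivity)]
                push_cast
                rfl
        have e3 : ((K : ℝ) * w.norm) ^ (τ * (d + 1)) =
            (K : ℝ) ^ (τ * (d + 1)) * (w.norm : ℝ) ^ (τ * (d + 1)) :=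
          Real.mul_rpow (by positivity) (by positivity)
        have hcard' : (Nat.card (Multiplicative (Fin d → ZMod p) ⋊[Phi p (σ j)]
            ((ZMod p)ˣ × P)) : ℝ) ≤ Fintype.card P * (p : ℝ) ^ (d + 1) := by
          exact_mod_cast hcard
        have hwp : (0 : ℝ) ≤ (w.norm : ℝ) ^ (τ * (d + 1)) := by positivity
        calc _ ≤ Fintype.card P * (p : ℝ) ^ (d + 1) := hcard'
          _ ≤ Fintype.card P * ((K : ℝ) ^ (τ * (d + 1)) * (w.norm : ℝ) ^ (τ * (d + 1))) := by
              rw [← e3]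
              exact mul_le_mul_of_nonneg_left e1 hPp
          _ = (Fintype.card P * (K : ℝ) ^ (τ * (d + 1))) * (w.norm : ℝ) ^ (τ * (d + 1)) := by
              ring
          _ ≤ _ := mul_le_mul_of_nonneg_right (by linarith [Nat.cast_nonneg (α := ℝ) c]) hwp
    · refine ⟨P, inferInstance, ρ, inferInstance, h2, ?_, ?_⟩
      · intro x hx
        have h3 : ⁅θ.ker, θ.ker⁆ ≤ ρ.ker := by
          rw [hker]
          exact (Subgroup.commutator_le_left _ _).trans inf_le_right
        exact h3 hx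
      · rw [Nat.card_eq_fintype_card]
        have h3 : (1 : ℝ) ≤ (w.norm : ℝ) ^ (τ * (d + 1)) := hn1r.trans hpow
        calc (Fintype.card P : ℝ) = Fintype.card P * 1 := (mul_one _).symm
          _ ≤ (Fintype.card P * (K : ℝ) ^ (τ * (d + 1)) + (c + 1) + Fintype.card P) *
              (w.norm : ℝ) ^ (τ * (d + 1)) := by
            apply mul_le_mul _ h3 (by norm_num) (by positivity)
            linarith [Nat.cast_nonneg (α := ℝ) c]
  · obtain ⟨j, hj⟩ : ∃ j, Multiplicative.toAdd (φ w) j ≠ 0 := by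
      by_contra hcon
      push Not at hcon
      exact h1 (Multiplicative.toAdd.injective (funext hcon))
    have h3 : |Multiplicative.toAdd (φ w) j| ≤ c * w.norm := by
      have := word_le θ c hc l j
      rw [hwl, ← hn] at this
      exact this
    set ψ : FreeGroup α →* Multiplicative (ZMod (c * w.norm + 1)) :=
      (AddMonoidHom.toMultiplicative ((Int.castAddHom (ZMod (c * w.norm + 1))).comp
        (Pi.evalAddMonoidHom (fun _ : Fin s => ℤ) j))).comp φ with hψ
    refine ⟨Multiplicative (ZMod (c * w.norm + 1)), inferInstance, ψ, inferInstance, ?_, ?_, ?_⟩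
    · intro h4
      have h5 : ((Multiplicative.toAdd (φ w) j : ℤ) : ZMod (c * w.norm + 1)) = 0 := h4
      rw [ZMod.intCast_zmod_eq_zero_iff_dvd] at h5
      have h6 := Int.le_of_dvd (abs_pos.2 hj) ((dvd_abs _ _).2 h5)
      push_cast at h6
      linarith
    · intro x hx
      have h4 : ⁅θ.ker, θ.ker⁆ ≤ ψ.ker := by
        rw [Subgroup.commutator_le]
        intro a _ b _
        rw [MonoidHom.mem_ker, map_commutatorElement, commutatorElement_eq_one_iff_mul_comm]
        exact mul_comm (ψ a) (ψ b)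
      exact h4 hx
    · have h4 : Nat.card (Multiplicative (ZMod (c * w.norm + 1))) = c * w.norm + 1 := by
        rw [Nat.card_congr Multiplicative.toAdd, Nat.card_zmod]
      rw [h4]
      push_cast
      have hc0 : (0 : ℝ) ≤ c := Nat.cast_nonneg c
      calc (c : ℝ) * w.norm + 1 ≤ (c + 1) * w.norm := by linarith
        _ ≤ (c + 1) * (w.norm : ℝ) ^ (τ * (d + 1)) := by gcongr
        _ ≤ _ := mul_le_mul_of_nonneg_right (by linarith) (by positivity)

end Pool.Agent.H52FC
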