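import Pool.Agent.H52FC.Defs
import Pool.Agent.H52FC.Main
import Pool.Agent.RFG43.ThreeB
import Pool.Agent.H7RF.Final

/-!
Helper file for `MP_b76cd5_al`: the prime statements in one, three and any number of variables.
-/

set_option autoImplicit false

namespace Pool.Agent.H52FC

open Pool.Agent.RFG43 Finset Filter

theorem prime_exact (s : ℕ) (hs : 2 ≤ s) (ε : ℝ) (hε : 0 < ε) :
    PrimeStm s ((s : ℝ) / (s + 1) + ε) := by
  obtain ⟨n0, hn0⟩ := Pool.Agent.H7RF.exists_prime_exact s hs ε hε 1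
  exact ⟨n0, fun n hn f hf hbox hl1 => hn0 n hn (Fin s) (Fintype.card_fin s) f hf hbox
    (by rw [pow_one]; exact hl1)⟩

theorem prime_three (ε : ℝ) (hε : 0 < ε) : PrimeStm 3 (11 / 15 + ε) := exists_prime_three ε hε

theorem core_one (n N r A : ℕ) (hN : 1 ≤ N) (M : Finset ℕ)
    (hM : ∀ m ∈ M, Good r N (1 / 4) m)
    (hR : n < ∑ m ∈ M, m.totient)
    (hB : (n : ℝ) ^ A < ((N : ℝ) ^ (1 - 1 / 4 : ℝ)) ^ r)
    (f : (Fin 1 → ℤ) →₀ ℤ) (hf : f ≠ 0)
    (hbox : ∀ x ∈ f.support, ∀ y ∈ f.support, ∀ j, |x j - y j| ≤ n)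
    (hl1 : ∑ x ∈ f.support, |f x| ≤ (n : ℤ) ^ A) :
    ∃ p : ℕ, ∃ _ : Fact p.Prime, p ≤ N ∧ ∃ a : Fin 1 → (ZMod p)ˣ, evg f a ≠ 0 := by
  classical
  by_contra hcon
  push Not at hcon
  obtain ⟨x₀, hx₀⟩ : f.support.Nonempty := Finsupp.support_nonempty_iff.2 hf
  have hNr : (1 : ℝ) ≤ N := by exact_mod_cast hN
  have hz := level_zero f.support f (fun x => x 0) M (fun m hm => (hM m hm).1) ?_ ?_ (x₀ 0)
  · have h1 : f.support.filter (fun x => x 0 = x₀ 0) = {x₀} := by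
      ext y
      rw [mem_filter, mem_singleton]
      constructor
      · rintro ⟨_, hy⟩
        funext j
        rw [Subsingleton.elim j 0]
        exact hy
      · rintro rfl
        exact ⟨hx₀, rfl⟩
    rw [h1, sum_singleton] at hz
    exact Finsupp.mem_support_iff.1 hx₀ hz
  · intro m hm z hz
    obtain ⟨hm0, Q, hQr, hQ⟩ := hM m hm
    refine root_zero f.support f (fun x => x 0) m hm0 (fun j => ?_) z hz
    refine fold_zero f.support f (fun x => x 0) m hm0 Q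
      (fun p hp => ⟨(hQ p hp).1, (hQ p hp).2.2.2⟩) ?_ ?_ j
    · have h1 : ((∑ x ∈ f.support, |f x| : ℤ) : ℝ) < ((∏ p ∈ Q, (p : ℤ) : ℤ) : ℝ) := by
        have h2 : ((∑ x ∈ f.support, |f x| : ℤ) : ℝ) ≤ (n : ℝ) ^ A := by exact_mod_cast hl1
        have hc1 : (1 : ℝ) ≤ (N : ℝ) ^ (1 - 1 / 4 : ℝ) :=
          Real.one_le_rpow hNr (by norm_num)
        have h3 : ((N : ℝ) ^ (1 - 1 / 4 : ℝ)) ^ r ≤ ((N : ℝ) ^ (1 - 1 / 4 : ℝ)) ^ Q.card :=
          pow_le_pow_right₀ hc1 hQr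
        have h4 : ((N : ℝ) ^ (1 - 1 / 4 : ℝ)) ^ Q.card ≤ ∏ p ∈ Q, (p : ℝ) := by
          rw [← prod_const]
          exact prod_le_prod (fun _ _ => by positivity) fun p hp => (hQ p hp).2.2.1.le
        have h5 : ((∏ p ∈ Q, (p : ℤ) : ℤ) : ℝ) = ∏ p ∈ Q, (p : ℝ) := by push_cast; rfl
        rw [h5]
        linarith
      exact_mod_cast h1
    · intro p hp hfact t
      have h1 := hcon p hfact (hQ p hp).2.1 (fun _ => t)
      rw [evg, Finsupp.sum] at h1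
      rw [← h1]
      refine sum_congr rfl fun x _ => ?_
      congr 2
      rw [Fin.prod_univ_one]
  · intro x hx y hy
    have h1 := (abs_le.1 (hbox x hx y hy 0)).2
    have h6 : ((n : ℕ) : ℤ) < ((∑ m ∈ M, m.totient : ℕ) : ℤ) := by exact_mod_cast hR
    exact lt_of_le_of_lt h1 h6

theorem prime_one (ε : ℝ) (hε : 0 < ε) : PrimeStm 1 (1 / 2 + ε) := by
  set e : ℝ := min ε (1 / 2) with he
  have he0 : 0 < e := lt_min hε (by norm_num)
  have he1 : e ≤ 1 / 2 := min_le_right _ _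
  have heε : e ≤ ε := min_le_left _ _
  obtain ⟨N0, hN0⟩ := totient_sum 8 (by omega) (e / 2) (by linarith)
  have f1 : ∀ᶠ n : ℕ in atTop, (64 : ℝ) ≤ (n : ℝ) ^ (e / 2) := ev_rpow (e / 2) 64 (by linarith)
  have f2 : ∀ᶠ n : ℕ in atTop, (N0 : ℝ) ≤ (n : ℝ) ^ (1 / 2 : ℝ) := ev_rpow (1 / 2) _ (by norm_num)
  obtain ⟨n0, hn0⟩ := eventually_atTop.1 (f1.and (f2.and (eventually_ge_atTop 2)))
  refine ⟨n0, fun n hn f hf hbox hl1 => ?_⟩
  obtain ⟨g1, g2, g3⟩ := hn0 n hn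
  have hn2 : (2 : ℝ) ≤ n := by exact_mod_cast g3
  have hn1 : (1 : ℝ) ≤ n := by linarith
  have hnpos : (0 : ℝ) < n := by linarith
  set a : ℝ := (n : ℝ) ^ (1 / 2 + e) with ha
  have hn12 : 1 ≤ (n : ℝ) ^ (1 / 2 : ℝ) := Real.one_le_rpow hn1 (by norm_num)
  have hE : (n : ℝ) ^ (e / 2) ≤ (n : ℝ) ^ e :=
    Real.rpow_le_rpow_of_exponent_le hn1 (by linarith)
  have ha' : a = (n : ℝ) ^ (1 / 2 : ℝ) * (n : ℝ) ^ e := Real.rpow_add hnpos _ _
  have ha2 : 2 ≤ a := by rw [ha']; nlinarith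
  set N : ℕ := ⌊a⌋₊ with hN
  have hNa : (N : ℝ) ≤ a := Nat.floor_le (by linarith)
  have hNa' : a / 2 ≤ N := by
    have := Nat.lt_floor_add_one a
    rw [← hN] at this
    linarith
  have hN12 : (n : ℝ) ^ (1 / 2 : ℝ) ≤ N := by
    rw [ha'] at hNa'
    nlinarith
  have hN1 : 1 ≤ N := by
    have : (1 : ℝ) ≤ N := hn12.trans hN12
    exact_mod_cast this
  obtain ⟨M, hM1, hM2⟩ := hN0 N (by exact_mod_cast g2.trans hN12)
  have c1 : n < ∑ m ∈ M, m.totient := by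
    have h1 : (n : ℝ) < ∑ m ∈ M, (m.totient : ℝ) := by
      refine lt_of_lt_of_le ?_ hM2
      have h3 : (a / 2) ^ (2 - e / 2) ≤ (N : ℝ) ^ (2 - e / 2) :=
        Real.rpow_le_rpow (by positivity) hNa' (by linarith)
      refine lt_of_lt_of_le ?_ h3
      rw [show a / 2 = a * (1 / 2) by ring, Real.mul_rpow (by positivity) (by norm_num)]
      have h4 : (1 / 4 : ℝ) ≤ (1 / 2 : ℝ) ^ (2 - e / 2) :=
        half_rpow_ge _ (by linarith) (by linarith)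
      have h5 : (n : ℝ) * (n : ℝ) ^ (e / 2) ≤ a ^ (2 - e / 2) := by
        rw [ha, ← Real.rpow_mul hnpos.le]
        nth_rewrite 1 [← Real.rpow_one (n : ℝ)]
        rw [← Real.rpow_add hnpos]
        apply Real.rpow_le_rpow_of_exponent_le hn1
        nlinarith
      have h6 : (n : ℝ) * (n : ℝ) ^ (e / 2) * (1 / 4) ≤
          a ^ (2 - e / 2) * (1 / 2 : ℝ) ^ (2 - e / 2) :=
        mul_le_mul h5 h4 (by norm_num) (by positivity)
      refine lt_of_lt_of_le ?_ h6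
      nlinarith
    exact_mod_cast h1
  have c3 : (n : ℝ) ^ 2 < ((N : ℝ) ^ (1 - 1 / 4 : ℝ)) ^ 8 := by
    have h1 : (n : ℝ) ^ (3 / 8 : ℝ) ≤ (N : ℝ) ^ (1 - 1 / 4 : ℝ) := by
      calc (n : ℝ) ^ (3 / 8 : ℝ) = ((n : ℝ) ^ (1 / 2 : ℝ)) ^ (1 - 1 / 4 : ℝ) := by
            rw [← Real.rpow_mul hnpos.le]; norm_num
        _ ≤ _ := Real.rpow_le_rpow (by positivity) hN12 (by norm_num)
    calc (n : ℝ) ^ 2 < (n : ℝ) ^ 3 := pow_lt_pow_right₀ (by linarith) (by omega)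
      _ = ((n : ℝ) ^ (3 / 8 : ℝ)) ^ 8 := by
          rw [← Real.rpow_natCast, ← Real.rpow_natCast, ← Real.rpow_mul hnpos.le]
          norm_num
      _ ≤ _ := pow_le_pow_left₀ (by positivity) h1 _
  obtain ⟨p, hp, hpN, a', ha'⟩ := core_one n N 8 2 hN1 M hM1 c1 c3 f hf hbox
    (hl1.trans (by exact_mod_cast Nat.le_self_pow (by norm_num) n))
  refine ⟨p, hp, ?_, a', ha'⟩
  have : (p : ℝ) ≤ N := by exact_mod_cast hpN
  refine this.trans (hNa.trans ?_)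
  exact Real.rpow_le_rpow_of_exponent_le hn1 (by linarith)

theorem tau_ge (s : ℕ) (hs : 1 ≤ s) : (1 / 2 : ℝ) ≤ tau s := by
  have hs1 : (1 : ℝ) ≤ s := by exact_mod_cast hs
  unfold tau
  split_ifs
  · norm_num
  · rw [div_le_div_iff₀ (by norm_num) (by linarith)]
    linarith

theorem prime_tau (s : ℕ) (hs : 1 ≤ s) (ε : ℝ) (hε : 0 < ε) : PrimeStm s (tau s + ε) := by
  unfold tau
  split_ifs with h
  · subst h
    exact prime_three ε hε
  · rcases Nat.lt_or_ge s 2 with h1 | h1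
    · have h2 : s = 1 := by omega
      subst h2
      have h3 : ((1 : ℕ) : ℝ) / ((1 : ℕ) + 1) + ε = 1 / 2 + ε := by norm_num
      rw [h3]
      exact prime_one ε hε
    · exact prime_exact s h1 ε hε

end Pool.Agent.H52FC
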