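import Pool.Agent.H52FC.Defs
import Pool.Agent.H52FC.Cover
import Pool.Agent.H52FC.Prime

/-!
Helper file for `MP_b76cd5_al`: finitely many homomorphisms separate, and the final bound.
-/

set_option autoImplicit false

namespace Pool.Agent.H52FC

/-- Finitely many of the homomorphisms separate. -/
theorem finite_family (d : ℕ) (P : Type) [Group P] [Fintype P] (h : Separated d P) :
    ∃ (m : ℕ) (σ : Fin m → (P →* Matrix (Fin d) (Fin d) ℤ)),
      ∀ f : P → ℤ, (∀ j, ∑ q, f q • σ j q = 0) → f = 0 := by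
  classical
  set Λ : (P →* Matrix (Fin d) (Fin d) ℤ) → ((P → ℚ) →ₗ[ℚ] Matrix (Fin d) (Fin d) ℚ) := fun σ =>
    ∑ q, (LinearMap.proj q : (P → ℚ) →ₗ[ℚ] ℚ).smulRight ((σ q).map (Int.cast : ℤ → ℚ)) with hΛ
  have hΛa : ∀ (σ : P →* Matrix (Fin d) (Fin d) ℤ) (f : P → ℚ),
      Λ σ f = ∑ q, f q • (σ q).map (Int.cast : ℤ → ℚ) := by
    intro σ f
    rw [hΛ, LinearMap.sum_apply]
    rfl
  have hcast : ∀ (σ : P →* Matrix (Fin d) (Fin d) ℤ) (f : P → ℤ),
      Λ σ (fun q => (f q : ℚ)) = 0 ↔ ∑ q, f q • σ q = 0 := by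
    intro σ f
    rw [hΛa]
    have h1 : ∑ q, (f q : ℚ) • (σ q).map (Int.cast : ℤ → ℚ) =
        (∑ q, f q • σ q).map (Int.cast : ℤ → ℚ) := by
      ext i j
      rw [Matrix.sum_apply, Matrix.map_apply, Matrix.sum_apply]
      push_cast
      exact Finset.sum_congr rfl fun q _ => by
        rw [Matrix.smul_apply, Matrix.smul_apply, Matrix.map_apply, smul_eq_mul, smul_eq_mul]
        push_cast
        rfl
    rw [h1]
    constructor
    · intro h2
      ext i j
      have h3 := congrFun (congrFun h2 i) j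
      rw [Matrix.map_apply, Matrix.zero_apply] at h3
      exact_mod_cast h3
    · intro h2
      rw [h2]
      ext i j
      simp
  -- a finite set of homomorphisms with the least common kernel
  set K : Finset (P →* Matrix (Fin d) (Fin d) ℤ) → Submodule ℚ (P → ℚ) := fun T =>
    ⨅ σ ∈ T, LinearMap.ker (Λ σ) with hK
  obtain ⟨T, hT⟩ : ∃ T : Finset (P →* Matrix (Fin d) (Fin d) ℤ), ∀ T',
      Module.finrank ℚ (K T) ≤ Module.finrank ℚ (K T') := by
    have hne : (Set.range fun T => Module.finrank ℚ (K T)).Nonempty := ⟨_, ∅, rfl⟩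
    obtain ⟨T, hT⟩ := Nat.sInf_mem hne
    exact ⟨T, fun T' => by
      change Module.finrank ℚ (K T) = _ at hT
      rw [hT]
      exact Nat.sInf_le ⟨T', rfl⟩⟩
  obtain ⟨e⟩ : Nonempty (Fin T.card ≃ T) := ⟨T.equivFin.symm⟩
  refine ⟨T.card, fun j => (e j : P →* Matrix (Fin d) (Fin d) ℤ), fun f hf => ?_⟩
  refine h f fun σ => ?_
  rw [← hcast]
  have hfT : (fun q => (f q : ℚ)) ∈ K T := by
    rw [hK, Submodule.mem_iInf]
    intro σ'
    rw [Submodule.mem_iInf]
    intro hσ'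
    rw [LinearMap.mem_ker, hcast]
    have h1 := hf (e.symm ⟨σ', hσ'⟩)
    simp only [Equiv.apply_symm_apply] at h1
    exact h1
  by_contra hne
  have hle : K (insert σ T) ≤ K T := by
    intro v hv
    rw [hK, Submodule.mem_iInf] at hv ⊢
    intro σ'
    rw [Submodule.mem_iInf]
    intro hσ'
    have h1 := hv σ'
    rw [Submodule.mem_iInf] at h1
    exact h1 (Finset.mem_insert_of_mem hσ')
  have hlt : K (insert σ T) < K T := by
    refine lt_of_le_of_ne hle fun heq => ?_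
    rw [← heq, hK, Submodule.mem_iInf] at hfT
    have h1 := hfT σ
    rw [Submodule.mem_iInf] at h1
    exact hne (h1 (Finset.mem_insert_self _ _))
  exact absurd (hT (insert σ T)) (not_le.2 (Submodule.finrank_lt_finrank_of_lt hlt))

/-- **The bound.** -/
theorem finite_covers (G ι : Type) [Group G] [Finite ι] [DecidableEq ι] (b : FreeGroupBasis ι G)
    (R : Subgroup G) [R.FiniteIndex] (s d : ℕ) (hs : 1 ≤ s) (hd : 1 ≤ d)
    (φ : R →* Multiplicative (Fin s → ℤ)) (P : Type) [Group P] [Fintype P]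
    (hP : Separated d P) (ρ : R →* P) (ε : ℝ) (hε : 0 < ε) :
    ∃ C : ℝ, 0 < C ∧ ∀ g : G, g ∉ (⁅φ.ker ⊓ ρ.ker, φ.ker ⊓ ρ.ker⁆).map R.subtype →
      ∃ (Q : Type) (_ : Group Q) (π : G →* Q), Finite Q ∧ π g ≠ 1 ∧
        (∀ x : G, (∀ y : G, y * x * y⁻¹ ∈
          (⁅φ.ker ⊓ ρ.ker, φ.ker ⊓ ρ.ker⁆).map R.subtype) → π x = 1) ∧
        (Nat.card Q : ℝ) ≤ C * ((b.repr g).norm : ℝ) ^ (R.index * (d + 1) * tau s + ε) := by
  obtain ⟨m, σ, hσ⟩ := finite_family d P hP
  have hi : (0 : ℝ) < R.index := by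
    exact_mod_cast Nat.pos_of_ne_zero (Subgroup.FiniteIndex.index_ne_zero (H := R))
  have hd1 : (1 : ℝ) ≤ d := by exact_mod_cast hd
  have ht := tau_ge s hs
  set ε' : ℝ := ε / (R.index * (d + 1)) with hε'
  have hε'0 : 0 < ε' := by positivity
  have hτ : 1 ≤ (tau s + ε') * (d + 1) := by nlinarith
  obtain ⟨C, hC, h⟩ := cover s d m (tau s + ε') hτ (prime_tau s hs ε' hε'0) G ι b R φ P ρ σ hσ
  refine ⟨C, hC, fun g hg => ?_⟩
  have he : (R.index : ℝ) * (d + 1) * tau s + ε = (tau s + ε') * (d + 1) * R.index := by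
    rw [hε']
    field_simp
  rw [he]
  exact h g hg

end Pool.Agent.H52FC
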