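import Mathlib

/-!
Helper file for `MP_b76cd5_al`: the homomorphism induced from a subgroup of finite index.
-/

set_option autoImplicit false

namespace Pool.Agent.H52FC

variable {G : Type} [Group G] (R : Subgroup G)

/-- The cocycle of a subgroup. -/
noncomputable def coc (g : G) (x : G ⧸ R) : R :=
  ⟨(Quotient.out (g • x))⁻¹ * (g * Quotient.out x), by
    rw [← QuotientGroup.eq]
    have h1 : (QuotientGroup.mk (Quotient.out (g • x)) : G ⧸ R) = g • x := Quotient.out_eq' _
    have h2 : (QuotientGroup.mk (Quotient.out x) : G ⧸ R) = x := Quotient.out_eq' _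
    rw [h1]
    change _ = g • (QuotientGroup.mk (Quotient.out x) : G ⧸ R)
    rw [h2]⟩

theorem coc_coe (g : G) (x : G ⧸ R) :
    (coc R g x : G) = (Quotient.out (g • x))⁻¹ * (g * Quotient.out x) := rfl

theorem coc_mul (g h : G) (x : G ⧸ R) : coc R (g * h) x = coc R g (h • x) * coc R h x := by
  apply Subtype.ext
  rw [Subgroup.coe_mul, coc_coe, coc_coe, coc_coe, mul_smul]
  group

theorem coc_one (x : G ⧸ R) : coc R 1 x = 1 := by
  apply Subtype.ext
  rw [coc_coe, one_smul, Subgroup.coe_one]
  group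

/-- The induced permutation representation. -/
noncomputable def ind {Q : Type} [Group Q] (π : R →* Q) : G →* Equiv.Perm ((G ⧸ R) × Q) where
  toFun g :=
    { toFun := fun y => (g • y.1, π (coc R g y.1) * y.2)
      invFun := fun y => (g⁻¹ • y.1, π (coc R g⁻¹ y.1) * y.2)
      left_inv := fun y => by
        apply Prod.ext
        · exact inv_smul_smul _ _
        · change π (coc R g⁻¹ (g • y.1)) * (π (coc R g y.1) * y.2) = y.2
          rw [← mul_assoc, ← map_mul, ← coc_mul, inv_mul_cancel, coc_one, map_one, one_mul]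
      right_inv := fun y => by
        apply Prod.ext
        · exact smul_inv_smul _ _
        · change π (coc R g (g⁻¹ • y.1)) * (π (coc R g⁻¹ y.1) * y.2) = y.2
          rw [← mul_assoc, ← map_mul, ← coc_mul, mul_inv_cancel, coc_one, map_one, one_mul] }
  map_one' := by
    apply Equiv.ext
    intro y
    apply Prod.ext
    · exact one_smul _ _
    · change π (coc R 1 y.1) * y.2 = y.2
      rw [coc_one, map_one, one_mul]
  map_mul' := fun g h => by
    apply Equiv.ext
    intro y
    apply Prod.ext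
    · exact mul_smul _ _ _
    · change π (coc R (g * h) y.1) * y.2 = π (coc R g (h • y.1)) * (π (coc R h y.1) * y.2)
      rw [coc_mul, map_mul, mul_assoc]

theorem ind_apply {Q : Type} [Group Q] (π : R →* Q) (g : G) (y : (G ⧸ R) × Q) :
    ind R π g y = (g • y.1, π (coc R g y.1) * y.2) := rfl

/-- **Induction.** -/
theorem induced [R.FiniteIndex] {Q : Type} [Group Q] [Finite Q] (π : R →* Q) :
    ∃ (Q' : Type) (_ : Group Q') (π' : G →* Q'), Finite Q' ∧
      Nat.card Q' ≤ R.index.factorial * Nat.card Q ^ R.index ∧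
      (∀ g : G, g ∉ R → π' g ≠ 1) ∧ (∀ g : R, π g ≠ 1 → π' (g : G) ≠ 1) ∧
      (∀ x : G, (∀ y : G, ∃ h : y * x * y⁻¹ ∈ R, π ⟨y * x * y⁻¹, h⟩ = 1) → π' x = 1) := by
  classical
  have hX : Finite (G ⧸ R) := R.finite_quotient_of_finiteIndex
  have hXF : Fintype (G ⧸ R) := Fintype.ofFinite _
  have hQF : Fintype Q := Fintype.ofFinite _
  have hcX : Fintype.card (G ⧸ R) = R.index := by
    rw [Subgroup.index, Nat.card_eq_fintype_card]
  have hinj : Function.Injective (fun z : (ind R π).range =>
      ((⟨fun x => ((z : Equiv.Perm ((G ⧸ R) × Q)) (x, 1)).1,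
        fun x => ((z : Equiv.Perm ((G ⧸ R) × Q))⁻¹ (x, 1)).1, by
          obtain ⟨_, g, rfl⟩ := z
          intro x
          rw [← map_inv]
          exact inv_smul_smul g x, by
          obtain ⟨_, g, rfl⟩ := z
          intro x
          rw [← map_inv]
          exact smul_inv_smul g x⟩ : Equiv.Perm (G ⧸ R)),
        fun x => ((z : Equiv.Perm ((G ⧸ R) × Q)) (x, 1)).2)) := by
    rintro ⟨_, g, rfl⟩ ⟨_, g', rfl⟩ h
    apply Subtype.ext
    apply Equiv.ext
    rintro ⟨x, q⟩
    have h1 := congrArg (fun e => e.1 x) h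
    have h2 := congrFun (congrArg (fun e => e.2) h) x
    simp only [ind_apply, Equiv.coe_fn_mk, mul_one] at h1 h2
    rw [ind_apply, ind_apply, h1, h2]
  refine ⟨(ind R π).range, inferInstance, (ind R π).rangeRestrict, inferInstance, ?_, ?_, ?_, ?_⟩
  · have h1 := Nat.card_le_card_of_injective _ hinj
    refine h1.trans (le_of_eq ?_)
    rw [Nat.card_prod, Nat.card_eq_fintype_card, Nat.card_eq_fintype_card,
      Nat.card_eq_fintype_card, Fintype.card_perm, Fintype.card_fun, hcX]
  · intro g hg h
    have h1 : ind R π g = 1 := congrArg Subtype.val h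
    have h2 := congrArg Prod.fst (Equiv.congr_fun h1 ((QuotientGroup.mk 1 : G ⧸ R), 1))
    rw [ind_apply] at h2
    change g • (QuotientGroup.mk 1 : G ⧸ R) = QuotientGroup.mk 1 at h2
    rw [MulAction.Quotient.smul_mk, smul_eq_mul, mul_one] at h2
    apply hg
    have h3 := QuotientGroup.eq.1 h2.symm
    rwa [inv_one, one_mul] at h3
  · intro g hg h
    have h1 : ind R π g = 1 := congrArg Subtype.val h
    have h2 := congrArg Prod.snd (Equiv.congr_fun h1 ((QuotientGroup.mk 1 : G ⧸ R), 1))
    rw [ind_apply] at h2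
    change π (coc R g (QuotientGroup.mk 1)) * 1 = 1 at h2
    rw [mul_one] at h2
    have h4 : (g : G) • (QuotientGroup.mk 1 : G ⧸ R) = QuotientGroup.mk 1 := by
      rw [MulAction.Quotient.smul_mk, smul_eq_mul, mul_one]
      apply QuotientGroup.eq.2
      rw [mul_one]
      exact R.inv_mem g.2
    have h5 : (Quotient.out (QuotientGroup.mk 1 : G ⧸ R)) ∈ R := by
      have h6 : (QuotientGroup.mk (Quotient.out (QuotientGroup.mk 1 : G ⧸ R)) : G ⧸ R) =
        QuotientGroup.mk 1 := Quotient.out_eq' _
      have h7 := QuotientGroup.eq.1 h6.symm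
      rwa [inv_one, one_mul] at h7
    have h8 : coc R g (QuotientGroup.mk 1) = (⟨_, h5⟩ : R)⁻¹ * (g * ⟨_, h5⟩) := by
      apply Subtype.ext
      rw [coc_coe, h4]
      rfl
    rw [h8, map_mul, map_mul, map_inv] at h2
    apply hg
    have h9 : π g = π ⟨_, h5⟩ * ((π ⟨_, h5⟩)⁻¹ * (π g * π ⟨_, h5⟩)) * (π ⟨_, h5⟩)⁻¹ := by group
    rw [h9, h2]
    group
  · intro x hx
    apply Subtype.ext
    change ind R π x = 1
    apply Equiv.ext
    rintro ⟨y, q⟩
    rw [ind_apply]
    obtain ⟨h, hh⟩ := hx (Quotient.out y)⁻¹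
    rw [inv_inv] at h
    have h1 : x • y = y := by
      have h2 : (QuotientGroup.mk (Quotient.out y) : G ⧸ R) = y := Quotient.out_eq' _
      conv_lhs => rw [← h2]
      conv_rhs => rw [← h2]
      rw [MulAction.Quotient.smul_mk, smul_eq_mul]
      apply QuotientGroup.eq.2
      have h3 : (x * Quotient.out y)⁻¹ * Quotient.out y =
          ((Quotient.out y)⁻¹ * x * Quotient.out y)⁻¹ := by group
      rw [h3]
      exact R.inv_mem h
    have h4 : π (coc R x y) = 1 := by
      rw [← hh]
      congr 1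
      apply Subtype.ext
      rw [coc_coe, h1]
      group
    change (x • y, π (coc R x y) * q) = (y, q)
    rw [h1, h4, one_mul]

end Pool.Agent.H52FC
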