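import Pool.Agent.H52FC.Mag

/-!
Helper file for `MP_b76cd5_al`: affine representations and the flow.
-/

set_option autoImplicit false

namespace Pool.Agent.H52FC

section general

variable {α : Type} [DecidableEq α] {H : Type} [Group H] {V : Type} [AddCommGroup V]
  {B : Type} [Group B]

/-- An action by additive maps as a homomorphism to the automorphism group. -/
def toAut (A : B → V →+ V) (h1 : ∀ v, A 1 v = v) (hm : ∀ b b' v, A (b * b') v = A b (A b' v)) :
    B →* MulAut (Multiplicative V) where
  toFun b :=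
    { toFun := fun v => Multiplicative.ofAdd (A b (Multiplicative.toAdd v))
      invFun := fun v => Multiplicative.ofAdd (A b⁻¹ (Multiplicative.toAdd v))
      left_inv := fun v => by
        change Multiplicative.ofAdd (A b⁻¹ (A b (Multiplicative.toAdd v))) = v
        rw [← hm, inv_mul_cancel, h1, ofAdd_toAdd]
      right_inv := fun v => by
        change Multiplicative.ofAdd (A b (A b⁻¹ (Multiplicative.toAdd v))) = v
        rw [← hm, mul_inv_cancel, h1, ofAdd_toAdd]
      map_mul' := fun v w => by
        rw [toAdd_mul, map_add, ofAdd_add] }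
  map_one' := by
    ext v
    change A 1 (Multiplicative.toAdd v) = _
    rw [h1]
    rfl
  map_mul' := fun b b' => by
    ext v
    change A (b * b') (Multiplicative.toAdd v) = _
    rw [hm]
    rfl

/-- The affine homomorphism. -/
def aff (Φ : B →* MulAut (Multiplicative V)) (β : α → B) (i₀ : α) (u : V) :
    FreeGroup α →* Multiplicative V ⋊[Φ] B :=
  FreeGroup.lift fun i => ⟨Multiplicative.ofAdd (if i = i₀ then u else 0), β i⟩

theorem aff_of (Φ : B →* MulAut (Multiplicative V)) (β : α → B) (i₀ : α) (u : V) (i : α) :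
    aff Φ β i₀ u (FreeGroup.of i) =
      ⟨Multiplicative.ofAdd (if i = i₀ then u else 0), β i⟩ := by
  rw [aff, FreeGroup.lift_apply_of]

theorem aff_right (Φ : B →* MulAut (Multiplicative V)) (β : α → B) (i₀ : α) (u : V)
    (w : FreeGroup α) : (aff Φ β i₀ u w).right = FreeGroup.lift β w := by
  have h : (SemidirectProduct.rightHom).comp (aff Φ β i₀ u) = FreeGroup.lift β := by
    ext i
    rw [MonoidHom.comp_apply, aff_of, FreeGroup.lift_apply_of]
    rfl
  exact DFunLike.congr_fun h w

/-- The value of a flow. -/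
noncomputable def val (κ : H →* B) (Φ : B →* MulAut (Multiplicative V)) (i₀ : α) (u : V) :
    (H × α →₀ ℤ) →+ V :=
  Finsupp.liftAddHom fun e => if e.2 = i₀ then
    zmultiplesHom V (Multiplicative.toAdd (Φ (κ e.1) (Multiplicative.ofAdd u))) else 0

theorem val_single (κ : H →* B) (Φ : B →* MulAut (Multiplicative V)) (i₀ : α) (u : V)
    (e : H × α) (k : ℤ) : val κ Φ i₀ u (Finsupp.single e k) =
      if e.2 = i₀ then k • Multiplicative.toAdd (Φ (κ e.1) (Multiplicative.ofAdd u)) else 0 := by
  rw [val, Finsupp.liftAddHom_apply_single]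
  split_ifs
  · rfl
  · rfl

theorem left_eq (θ : FreeGroup α →* H) (κ : H →* B) (Φ : B →* MulAut (Multiplicative V))
    (i₀ : α) (u : V) (l : List (α × Bool)) (h : H) :
    Φ (κ h) (aff Φ (fun i => κ (θ (FreeGroup.of i))) i₀ u (FreeGroup.mk l)).left =
      Multiplicative.ofAdd (val κ Φ i₀ u (flow θ l h)) := by
  induction l generalizing h with
  | nil =>
    have e1 : (FreeGroup.mk [] : FreeGroup α) = 1 := rfl
    rw [flow, map_zero, e1, map_one, SemidirectProduct.one_left, map_one]
    rfl
  | cons x l ih =>
    have e1 : FreeGroup.lift (fun i => κ (θ (FreeGroup.of i))) = κ.comp θ := by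
      ext i
      rw [FreeGroup.lift_apply_of]
      rfl
    rw [flow, map_add, ofAdd_add, ← ih, mk_cons x l, map_mul, SemidirectProduct.mul_left,
      map_mul, aff_right, e1, MonoidHom.comp_apply, map_mul κ, map_mul Φ, MulAut.mul_apply]
    congr 1
    rw [val_single]
    rcases x with ⟨i, b⟩
    cases b
    · rw [mk_false, map_inv, SemidirectProduct.inv_left, aff_of]
      simp only [edge, sgn, Bool.false_eq_true, if_false]
      rw [mk_false, map_inv θ, map_mul κ, map_mul Φ, MulAut.mul_apply, map_inv κ]
      by_cases hi : i = i₀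
      · rw [if_pos hi, if_pos hi, neg_one_smul, ofAdd_neg, ofAdd_toAdd, map_inv, map_inv]
      · rw [if_neg hi, if_neg hi, ofAdd_zero, inv_one, map_one, map_one]
    · rw [mk_true, aff_of]
      simp only [edge, sgn, if_true, one_smul]
      by_cases hi : i = i₀
      · rw [if_pos hi, if_pos hi, ofAdd_toAdd]
      · rw [if_neg hi, if_neg hi, ofAdd_zero, map_one]

/-- The affine homomorphism kills the derived subgroup of the kernel. -/
theorem aff_kills (θ : FreeGroup α →* H) (κ : H →* B) (Φ : B →* MulAut (Multiplicative V))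
    (i₀ : α) (u : V) (x : FreeGroup α) (hx : x ∈ ⁅θ.ker, θ.ker⁆) :
    aff Φ (fun i => κ (θ (FreeGroup.of i))) i₀ u x = 1 := by
  set π := aff Φ (fun i => κ (θ (FreeGroup.of i))) i₀ u with hπ
  have e1 : FreeGroup.lift (fun i => κ (θ (FreeGroup.of i))) = κ.comp θ := by
    ext i
    rw [FreeGroup.lift_apply_of]
    rfl
  have h1 : ∀ a ∈ θ.ker, (π a).right = 1 := by
    intro a ha
    rw [hπ, aff_right, e1, MonoidHom.comp_apply, MonoidHom.mem_ker.1 ha, map_one]
  have h2 : ⁅θ.ker, θ.ker⁆ ≤ π.ker := by
    rw [Subgroup.commutator_le]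
    intro a ha b hb
    rw [MonoidHom.mem_ker, map_commutatorElement, commutatorElement_eq_one_iff_mul_comm]
    apply SemidirectProduct.ext
    · rw [SemidirectProduct.mul_left, SemidirectProduct.mul_left, h1 a ha, h1 b hb, map_one,
        MulAut.one_apply, MulAut.one_apply, mul_comm]
    · rw [SemidirectProduct.mul_right, SemidirectProduct.mul_right, h1 a ha, h1 b hb]
  exact h2 hx

/-- A word with non-zero value of its flow survives. -/
theorem aff_ne_one (θ : FreeGroup α →* H) (κ : H →* B) (Φ : B →* MulAut (Multiplicative V))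
    (i₀ : α) (u : V) (l : List (α × Bool)) (hl : val κ Φ i₀ u (flow θ l 1) ≠ 0) :
    aff Φ (fun i => κ (θ (FreeGroup.of i))) i₀ u (FreeGroup.mk l) ≠ 1 := by
  intro h
  have h1 := left_eq θ κ Φ i₀ u l 1
  rw [h, map_one, map_one, MulAut.one_apply, SemidirectProduct.one_left] at h1
  exact hl (Multiplicative.ofAdd.injective (h1.symm.trans ofAdd_zero.symm))

end general

end Pool.Agent.H52FC
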