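import Pool.Agent.H52FC.Defs

/-!
Helper file for `MP_b76cd5_al`: the symmetric group on four letters is separated in degree three.
-/

set_option autoImplicit false

namespace Pool.Agent.H52FC

/-- The vertices of a regular tetrahedron. -/
def vtx (i : Fin 4) (k : Fin 3) : ℤ := if i.val = 0 ∨ i.val = k.val + 1 then 1 else -1

/-- The signed permutation matrix of a permutation of the vertices. -/
def tet (g : Equiv.Perm (Fin 4)) : Matrix (Fin 3) (Fin 3) ℤ := fun k j =>
  (vtx (g 0) k + vtx (g j.succ) k) / 2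

/-- The permutation matrix on the axes. -/
def axs (g : Equiv.Perm (Fin 4)) : Matrix (Fin 3) (Fin 3) ℤ := fun k j => (tet g k j) ^ 2

theorem tet_one : tet 1 = 1 := by decide +kernel

theorem axs_one : axs 1 = 1 := by decide +kernel

theorem tet_mul : ∀ g h : Equiv.Perm (Fin 4), tet (g * h) = tet g * tet h := by decide +kernel

theorem axs_mul : ∀ g h : Equiv.Perm (Fin 4), axs (g * h) = axs g * axs h := by decide +kernel

theorem reg_char : ∀ x : Equiv.Perm (Fin 4),
    6 * (axs x).trace - 3 + 3 * (Equiv.Perm.sign x : ℤ) + 9 * (tet x).trace +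
      9 * ((Equiv.Perm.sign x : ℤ) * (tet x).trace) = if x = 1 then 72 else 0 := by
  decide +kernel

/-- A homomorphism to the integral matrices times the sign. -/
def twist (σ : Equiv.Perm (Fin 4) →* Matrix (Fin 3) (Fin 3) ℤ) :
    Equiv.Perm (Fin 4) →* Matrix (Fin 3) (Fin 3) ℤ where
  toFun g := (Equiv.Perm.sign g : ℤ) • σ g
  map_one' := by rw [map_one, map_one, Units.val_one, one_smul]
  map_mul' := fun g h => by
    rw [map_mul, map_mul, Units.val_mul, smul_mul_smul_comm]

/-- The group ring of the symmetric group on four letters is separated in degree three. -/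
theorem separated_four : Separated 3 (Equiv.Perm (Fin 4)) := by
  intro f hf
  set A : Equiv.Perm (Fin 4) →* Matrix (Fin 3) (Fin 3) ℤ := ⟨⟨tet, tet_one⟩, tet_mul⟩ with hA
  set B : Equiv.Perm (Fin 4) →* Matrix (Fin 3) (Fin 3) ℤ := ⟨⟨axs, axs_one⟩, axs_mul⟩ with hB
  have key : ∀ (σ : Equiv.Perm (Fin 4) →* Matrix (Fin 3) (Fin 3) ℤ) (x : Equiv.Perm (Fin 4)),
      ∑ q, f q * (σ (x⁻¹ * q)).trace = 0 := by
    intro σ x
    have h1 : ∑ q, f q * (σ (x⁻¹ * q)).trace = (σ x⁻¹ * ∑ q, f q • σ q).trace := by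
      rw [Finset.mul_sum, Matrix.trace_sum]
      refine Finset.sum_congr rfl fun q _ => ?_
      rw [mul_smul_comm, Matrix.trace_smul, ← map_mul, smul_eq_mul]
    rw [h1, hf σ, mul_zero, Matrix.trace_zero]
  funext x
  have h1 := key B x
  have h2 := key 1 x
  have h3 := key (twist 1) x
  have h4 := key A x
  have h5 := key (twist A) x
  have h6 : ∑ q, f q * (if x⁻¹ * q = 1 then (72 : ℤ) else 0) =
      6 * ∑ q, f q * (B (x⁻¹ * q)).trace -
      ∑ q, f q * ((1 : Equiv.Perm (Fin 4) →* Matrix (Fin 3) (Fin 3) ℤ) (x⁻¹ * q)).trace +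
      ∑ q, f q * (twist 1 (x⁻¹ * q)).trace + 9 * ∑ q, f q * (A (x⁻¹ * q)).trace +
      9 * ∑ q, f q * (twist A (x⁻¹ * q)).trace := by
    rw [Finset.mul_sum, Finset.mul_sum, Finset.mul_sum, ← Finset.sum_sub_distrib,
      ← Finset.sum_add_distrib, ← Finset.sum_add_distrib, ← Finset.sum_add_distrib]
    refine Finset.sum_congr rfl fun q _ => ?_
    rw [← reg_char (x⁻¹ * q)]
    have e1 : ((1 : Equiv.Perm (Fin 4) →* Matrix (Fin 3) (Fin 3) ℤ) (x⁻¹ * q)).trace = 3 := by
      rw [MonoidHom.one_apply, Matrix.trace_one]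
      rfl
    have e2 : (twist 1 (x⁻¹ * q)).trace = 3 * (Equiv.Perm.sign (x⁻¹ * q) : ℤ) := by
      change ((Equiv.Perm.sign (x⁻¹ * q) : ℤ) •
        (1 : Matrix (Fin 3) (Fin 3) ℤ)).trace = _
      rw [Matrix.trace_smul, Matrix.trace_one, smul_eq_mul]
      simp [mul_comm]
    have e3 : (twist A (x⁻¹ * q)).trace =
        (Equiv.Perm.sign (x⁻¹ * q) : ℤ) * (tet (x⁻¹ * q)).trace := by
      change ((Equiv.Perm.sign (x⁻¹ * q) : ℤ) • tet (x⁻¹ * q)).trace = _
      rw [Matrix.trace_smul, smul_eq_mul]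
    have e4 : (A (x⁻¹ * q)).trace = (tet (x⁻¹ * q)).trace := rfl
    have e5 : (B (x⁻¹ * q)).trace = (axs (x⁻¹ * q)).trace := rfl
    rw [e1, e2, e3, e4, e5]
    ring
  rw [h1, h2, h3, h4, h5, Finset.sum_eq_single x] at h6
  · rw [inv_mul_cancel, if_pos rfl] at h6
    rw [Pi.zero_apply]
    omega
  · intro q _ hq
    rw [if_neg, mul_zero]
    intro h
    exact hq (inv_mul_eq_one.1 h).symm
  · intro h
    exact absurd (Finset.mem_univ _) h

end Pool.Agent.H52FC
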